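import Pool.Agent.Helper19.TW.Member2
import Pool.Agent.Helper8.TW.Count
import Pool.Agent.Helper33.TW.Primes

namespace Pool.Agent.Helper19.TW

/-- rank at least two from two independent points -/
lemma rank_ge {a b d : ℤ} (h : ∃ P Q : (tw a b d).toAffine.Point, LinearIndependent ℤ ![P, Q]) :
    (2 : Cardinal) ≤ Module.rank ℤ (tw a b d).toAffine.Point := by
  obtain ⟨P, Q, hPQ⟩ := h
  have := hPQ.cardinal_le_rank
  simpa using this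

/-- the set which is counted -/
def Good (a b : ℤ) (w : ℤ → ℤ) : Set ℤ :=
  {d | IsFund d ∧ w d = 1 ∧ (2 : Cardinal) ≤ Module.rank ℤ (tw a b d).toAffine.Point}

theorem main {a b : ℤ} (ha : a ≠ 0) (hb : b ≠ 0) (hroot : ∀ r : ℚ, r ^ 3 + a * r + b ≠ 0)
    {M : ℕ} (hM : 1 ≤ M) {w : ℤ → ℤ} (hw : RootLike M w)
    (h : ∃ u v : ℤ, FF a b u v ≠ 0 ∧ w (FF a b u v) = 1) :
    ∃ c : ℝ, 0 < c ∧ ∃ D₀ : ℝ, ∀ D : ℝ, D₀ ≤ D →
      c * D ^ (1 / 7 : ℝ) / Real.log D ≤ (Set.ncard {d : ℤ | d ∈ Good a b w ∧ |(d : ℝ)| ≤ D} : ℝ) := by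
  obtain ⟨u, v, h0, h1⟩ := h
  obtain ⟨C, l0, H⟩ := member ha hb hroot hM hw h0 h1
  classical
  choose! d hd using H
  obtain ⟨c, hc, x0, hp⟩ := Pool.Agent.Helper33.TW.primes4
  obtain ⟨c', hc', D0, hD⟩ := Pool.Agent.Helper8.TW.count (fun l => l % 4 = 1) 7 (by norm_num) C l0
    (Good a b w) d (fun l hl hl4 hll => by
      obtain ⟨e1, e2, e3, e4, e5, e6⟩ := hd l hl hl4 hll
      exact ⟨⟨e1, e2, rank_ge e3⟩, e4, e5, e6⟩) c hc x0 hp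
  refine ⟨c', hc', D0, fun D hDD => ?_⟩
  have := hD D hDD
  simpa using this

end Pool.Agent.Helper19.TW
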