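import Pool.Agent.Helper19.TW.Member

namespace Pool.Agent.Helper19.TW

open Pool.Agent.Helper8.TW

lemma disc_ne {a b : ℤ} (ha : a ≠ 0) (hroot : ∀ r : ℚ, r ^ 3 + a * r + b ≠ 0) :
    4 * a ^ 3 + 27 * b ^ 2 ≠ 0 := by
  intro h
  have ha' : (a : ℚ) ≠ 0 := by exact_mod_cast ha
  have h' : (4 : ℚ) * a ^ 3 + 27 * b ^ 2 = 0 := by exact_mod_cast h
  apply hroot (-(3 * b) / (2 * a))
  field_simp
  linear_combination (-(b : ℚ)) * h'

lemma prime_not_dvd_of_lt {l : ℕ} {z : ℤ} (hz : z ≠ 0) (h : z.natAbs < l) : ¬ (l : ℤ) ∣ z := by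
  intro hd
  have := Int.natAbs_dvd_natAbs.2 hd
  rw [Int.natAbs_natCast] at this
  exact absurd (Nat.le_of_dvd (Int.natAbs_pos.2 hz) this) (by omega)

/-- divisibility by the large prime -/
lemma large_prime {a b u v : ℤ} {l : ℕ} (hl : l.Prime) (ha : ¬ (l : ℤ) ∣ a) (hb : ¬ (l : ℤ) ∣ b)
    (h1 : (l : ℤ) ∣ SS u v) (h2 : ¬ (l : ℤ) ^ 2 ∣ SS u v) {d r : ℤ} (hF : FF a b u v = d * r ^ 2) :
    (l : ℤ) ∣ d := by
  have hlI : Prime (l : ℤ) := Nat.prime_iff_prime_int.1 hl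
  have huv : ∀ x y : ℤ, (l : ℤ) ∣ SS x y → ¬ (l : ℤ) ^ 2 ∣ SS x y → ¬ (l : ℤ) ∣ x := by
    intro x y g1 g2 g3
    have g4 : (l : ℤ) ∣ y ^ 2 := by
      have := dvd_sub g1 (Dvd.dvd.mul_right g3 x)
      have e : SS x y - x * x = y ^ 2 := by simp only [SS]; ring
      rwa [e] at this
    have g5 := hlI.dvd_of_dvd_pow g4
    apply g2
    simp only [SS]
    exact dvd_add (pow_dvd_pow_of_dvd g3 2) (pow_dvd_pow_of_dvd g5 2)
  have hu := huv u v h1 h2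
  have hv := huv v u (by rwa [SS_comm]) (by rwa [SS_comm])
  have hK : ¬ (l : ℤ) ∣ KK a b u v := by
    intro hK
    have e : KK a b u v = SS u v * ((b ^ 2 * (WW u v ^ 2 - WW u v * (u ^ 2 * v ^ 2)
      + (u ^ 2 * v ^ 2) ^ 2)) * SS u v + a ^ 3 * u ^ 4 * v ^ 4 * SS u v)
      - b ^ 2 * (u ^ 2 * v ^ 2) ^ 3 := by
      simp only [KK, WW, SS]; ring
    have h3 : (l : ℤ) ∣ b ^ 2 * (u ^ 2 * v ^ 2) ^ 3 := by
      have := dvd_sub (Dvd.dvd.mul_right h1 ((b ^ 2 * (WW u v ^ 2 - WW u v * (u ^ 2 * v ^ 2)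
        + (u ^ 2 * v ^ 2) ^ 2)) * SS u v + a ^ 3 * u ^ 4 * v ^ 4 * SS u v)) hK
      have e2 : SS u v * ((b ^ 2 * (WW u v ^ 2 - WW u v * (u ^ 2 * v ^ 2)
        + (u ^ 2 * v ^ 2) ^ 2)) * SS u v + a ^ 3 * u ^ 4 * v ^ 4 * SS u v) - KK a b u v =
        b ^ 2 * (u ^ 2 * v ^ 2) ^ 3 := by rw [e]; ring
      rwa [e2] at this
    rcases hlI.dvd_or_dvd h3 with h4 | h4
    · exact hb (hlI.dvd_of_dvd_pow h4)
    · rcases hlI.dvd_or_dvd (hlI.dvd_of_dvd_pow h4) with h5 | h5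
      · exact hu (hlI.dvd_of_dvd_pow h5)
      · exact hv (hlI.dvd_of_dvd_pow h5)
  have hr : ¬ (l : ℤ) ∣ r := by
    intro hr
    have h3 : (l : ℤ) ^ 2 ∣ SS u v * (-(a * b) * KK a b u v) := by
      have e : SS u v * (-(a * b) * KK a b u v) = FF a b u v := by simp only [FF]; ring
      rw [e, hF]
      exact Dvd.dvd.mul_left (pow_dvd_pow_of_dvd hr 2) d
    have hc : IsCoprime ((l : ℤ) ^ 2) (-(a * b) * KK a b u v) := by
      apply IsCoprime.pow_left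
      refine (Prime.coprime_iff_not_dvd hlI).2 ?_
      intro h4
      rcases hlI.dvd_or_dvd h4 with h5 | h5
      · rw [dvd_neg] at h5
        rcases hlI.dvd_or_dvd h5 with h6 | h6
        · exact ha h6
        · exact hb h6
      · exact hK h5
    exact h2 (hc.dvd_of_dvd_mul_right h3)
  have h5 : (l : ℤ) ∣ d * r ^ 2 := by
    rw [← hF]
    have e : FF a b u v = SS u v * (-(a * b) * KK a b u v) := by simp only [FF]; ring
    rw [e]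
    exact Dvd.dvd.mul_right h1 _
  rcases hlI.dvd_or_dvd h5 with h6 | h6
  · exact h6
  · exact absurd (hlI.dvd_of_dvd_pow h6) hr

/-- size of the form -/
lemma FF_bound (a b : ℤ) {u v : ℤ} {T : ℝ} (hT : (u : ℝ) ^ 2 + (v : ℝ) ^ 2 ≤ T) :
    |(FF a b u v : ℝ)| ≤ |(a : ℝ)| * |(b : ℝ)| * ((b : ℝ) ^ 2 + |(a : ℝ)| ^ 3) * T ^ 7 := by
  set S : ℝ := (u : ℝ) ^ 2 + (v : ℝ) ^ 2 with hS
  have hS0 : 0 ≤ S := by positivity
  have hu : (u : ℝ) ^ 2 ≤ S := by rw [hS]; nlinarith [sq_nonneg (v : ℝ)]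
  have hv : (v : ℝ) ^ 2 ≤ S := by rw [hS]; nlinarith [sq_nonneg (u : ℝ)]
  have hW : (u : ℝ) ^ 4 + (u : ℝ) ^ 2 * (v : ℝ) ^ 2 + (v : ℝ) ^ 4 ≤ S ^ 2 := by
    rw [hS]; nlinarith [mul_nonneg (sq_nonneg (u : ℝ)) (sq_nonneg (v : ℝ))]
  have hW0 : 0 ≤ (u : ℝ) ^ 4 + (u : ℝ) ^ 2 * (v : ℝ) ^ 2 + (v : ℝ) ^ 4 := by positivity
  have hK : |(KK a b u v : ℝ)| ≤ ((b : ℝ) ^ 2 + |(a : ℝ)| ^ 3) * S ^ 6 := by
    have e : (KK a b u v : ℝ) = (b : ℝ) ^ 2 * ((u : ℝ) ^ 4 + (u : ℝ) ^ 2 * (v : ℝ) ^ 2 +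
      (v : ℝ) ^ 4) ^ 3 + (a : ℝ) ^ 3 * (((u : ℝ) ^ 2) ^ 2 * ((v : ℝ) ^ 2) ^ 2 * S ^ 2) := by
      simp only [KK, WW, SS, hS]; push_cast; ring
    rw [e]
    refine (abs_add_le _ _).trans ?_
    rw [add_mul]
    refine add_le_add ?_ ?_
    · rw [abs_of_nonneg (by positivity)]
      have : ((u : ℝ) ^ 4 + (u : ℝ) ^ 2 * (v : ℝ) ^ 2 + (v : ℝ) ^ 4) ^ 3 ≤ (S ^ 2) ^ 3 :=
        pow_le_pow_left₀ hW0 hW 3
      have e2 : (S ^ 2) ^ 3 = S ^ 6 := by ring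
      rw [e2] at this
      exact mul_le_mul_of_nonneg_left this (by positivity)
    · rw [abs_mul, abs_pow]
      refine mul_le_mul_of_nonneg_left ?_ (by positivity)
      rw [abs_of_nonneg (by positivity)]
      have h1 : ((u : ℝ) ^ 2) ^ 2 ≤ S ^ 2 := pow_le_pow_left₀ (by positivity) hu 2
      have h2 : ((v : ℝ) ^ 2) ^ 2 ≤ S ^ 2 := pow_le_pow_left₀ (by positivity) hv 2
      calc ((u : ℝ) ^ 2) ^ 2 * ((v : ℝ) ^ 2) ^ 2 * S ^ 2 ≤ S ^ 2 * S ^ 2 * S ^ 2 := by gcongr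
        _ = S ^ 6 := by ring
  have e : (FF a b u v : ℝ) = -((a : ℝ) * b) * S * (KK a b u v : ℝ) := by
    simp only [FF, SS, hS]; push_cast; ring
  rw [e, abs_mul, abs_mul, abs_neg, abs_mul, abs_of_nonneg hS0]
  calc |(a : ℝ)| * |(b : ℝ)| * S * |(KK a b u v : ℝ)|
      ≤ |(a : ℝ)| * |(b : ℝ)| * S * (((b : ℝ) ^ 2 + |(a : ℝ)| ^ 3) * S ^ 6) := by gcongr
    _ = |(a : ℝ)| * |(b : ℝ)| * ((b : ℝ) ^ 2 + |(a : ℝ)| ^ 3) * S ^ 7 := by ring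
    _ ≤ |(a : ℝ)| * |(b : ℝ)| * ((b : ℝ) ^ 2 + |(a : ℝ)| ^ 3) * T ^ 7 := by gcongr

/-- fundamental discriminant with the same twist -/
lemma fund_of_sqfree {d : ℤ} (hd : Squarefree d) : IsFund d ∨ IsFund (4 * d) := by
  have h4 : d % 4 ≠ 0 := by
    intro h
    have h1 : (2 * 2 : ℤ) ∣ d := by omega
    have := hd 2 h1
    have h2 := Int.isUnit_iff.1 this
    omega
  by_cases h1 : d % 4 = 1
  · exact Or.inl (Or.inl ⟨h1, hd⟩)
  · refine Or.inr (Or.inr ⟨d, rfl, by omega, hd⟩)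

/-- one member of the family for each large prime `l ≡ 1 (mod 4)` -/
theorem member {a b : ℤ} (ha : a ≠ 0) (hb : b ≠ 0) (hroot : ∀ r : ℚ, r ^ 3 + a * r + b ≠ 0)
    {M : ℕ} (hM : 1 ≤ M) {w : ℤ → ℤ} (hw : RootLike M w) {u₁ v₁ : ℤ} (h0 : FF a b u₁ v₁ ≠ 0)
    (h1 : w (FF a b u₁ v₁) = 1) :
    ∃ (C : ℝ) (l0 : ℕ), ∀ l : ℕ, l.Prime → l % 4 = 1 → l0 ≤ l → ∃ d : ℤ, IsFund d ∧ w d = 1 ∧
      (∃ P Q : (tw a b d).toAffine.Point, LinearIndependent ℤ ![P, Q]) ∧ d ≠ 0 ∧ (l : ℤ) ∣ d ∧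
        |(d : ℝ)| ≤ C * (l : ℝ) ^ 7 := by
  have hD := disc_ne ha hroot
  set F₁ := FF a b u₁ v₁ with hF₁
  set L₁ : ℤ := 8 * M * F₁ with hL₁
  have hM0 : (M : ℤ) ≠ 0 := by positivity
  have hL₁0 : L₁ ≠ 0 := mul_ne_zero (mul_ne_zero (by norm_num) hM0) h0
  obtain ⟨p, hp, hpL, t, hG⟩ := exists_class ha hb hD hL₁0
  have hpI : Prime (p : ℤ) := Nat.prime_iff_prime_int.1 hp
  haveI : Fact p.Prime := ⟨hp⟩
  -- Chinese remainders
  have hcop : IsCoprime L₁ ((p : ℤ) ^ 2) := by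
    apply IsCoprime.pow_right
    exact ((Prime.coprime_iff_not_dvd hpI).2 hpL).symm
  obtain ⟨al, be, hab⟩ := hcop
  have crt : ∀ x y : ℤ, ∃ z : ℤ, z ≡ x [ZMOD L₁] ∧ z ≡ y [ZMOD (p : ℤ) ^ 2] := by
    intro x y
    refine ⟨x * (be * (p : ℤ) ^ 2) + y * (al * L₁), ?_, ?_⟩
    · refine (Int.modEq_iff_dvd).2 ⟨al * (x - y), ?_⟩
      linear_combination (-x) * hab
    · refine (Int.modEq_iff_dvd).2 ⟨be * (y - x), ?_⟩
      linear_combination (-y) * hab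
  obtain ⟨uc, huc1, huc2⟩ := crt u₁ t
  obtain ⟨vc, hvc1, hvc2⟩ := crt v₁ 1
  -- sign
  have hne : u₁ ≠ 0 ∨ v₁ ≠ 0 := by
    by_contra hc
    push Not at hc
    apply h0
    rw [hF₁, hc.1, hc.2]
    simp [FF, KK, WW, SS]
  have hKcast : ∀ u v : ℤ, Kf (a : ℝ) b u v = ((KK a b u v : ℤ) : ℝ) := by
    intro u v
    simp only [Kf, KK, WW, SS]; push_cast; ring
  have hK₁ : KK a b u₁ v₁ ≠ 0 := by
    intro h
    apply h0
    rw [hF₁]; simp only [FF]; rw [h, mul_zero]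
  obtain ⟨e, he, he1, hcone⟩ : ∃ e : ℝ, 0 < e ∧ e < 1 ∧ ∀ (t : ℝ) (u v : ℤ), 0 < t →
      |(u : ℝ) - t * u₁| ≤ e * t → |(v : ℝ) - t * v₁| ≤ e * t →
      0 < KK a b u v * KK a b u₁ v₁ := by
    rcases lt_or_gt_of_ne hK₁ with hlt | hgt
    · obtain ⟨e, he, he1, H⟩ := K_neg (a : ℝ) b u₁ v₁ (by rw [hKcast]; exact_mod_cast hlt)
      refine ⟨e, he, he1, fun t u v ht hu hv => ?_⟩
      have := H t u v ht hu hv
      rw [hKcast] at this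
      exact mul_pos_of_neg_of_neg (by exact_mod_cast this) hlt
    · obtain ⟨e, he, he1, H⟩ := K_pos (a : ℝ) b u₁ v₁ (by rw [hKcast]; exact_mod_cast hgt)
      refine ⟨e, he, he1, fun t u v ht hu hv => ?_⟩
      have := H t u v ht hu hv
      rw [hKcast] at this
      exact mul_pos (by exact_mod_cast this) hgt
  set L : ℕ := L₁.natAbs * p ^ 2 with hL
  have hL1 : 1 ≤ L := by
    rw [hL]
    exact Nat.one_le_iff_ne_zero.2 (mul_ne_zero (Int.natAbs_ne_zero.2 hL₁0)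
      (pow_ne_zero 2 hp.ne_zero))
  obtain ⟨C, R, l0, hR, H⟩ := gauss uc vc u₁ v₁ hne L hL1 e he he1
  set C' : ℝ := |(a : ℝ)| * |(b : ℝ)| * ((b : ℝ) ^ 2 + |(a : ℝ)| ^ 3) * C ^ 7 with hC'
  refine ⟨4 * C', max l0 (a.natAbs + b.natAbs + 1), ?_⟩
  intro l hl hl4 hll
  have hl0 : l0 ≤ l := le_trans (le_max_left _ _) hll
  have hla : ¬ (l : ℤ) ∣ a := prime_not_dvd_of_lt ha (by have := le_trans (le_max_right _ _) hll; omega)
  have hlb : ¬ (l : ℤ) ∣ b := prime_not_dvd_of_lt hb (by have := le_trans (le_max_right _ _) hll; omega)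
  obtain ⟨u, v, hu, hv, hS1, hS2, hsz, hdu, hdv⟩ := H l hl hl4 hl0
  have hLL : (L : ℤ) = |L₁| * (p : ℤ) ^ 2 := by
    rw [hL]; push_cast; rfl
  have hL₁L : L₁ ∣ (L : ℤ) := by
    rw [hLL]; exact Dvd.dvd.mul_right ((dvd_abs _ _).2 dvd_rfl) _
  have hpL' : (p : ℤ) ^ 2 ∣ (L : ℤ) := by rw [hLL]; exact Dvd.intro_left _ rfl
  have hu1 : u ≡ u₁ [ZMOD L₁] :=
    (((Int.modEq_iff_dvd).2 hu).symm.of_dvd hL₁L).trans huc1
  have hv1 : v ≡ v₁ [ZMOD L₁] :=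
    (((Int.modEq_iff_dvd).2 hv).symm.of_dvd hL₁L).trans hvc1
  have hu2 : u ≡ t [ZMOD (p : ℤ) ^ 2] :=
    (((Int.modEq_iff_dvd).2 hu).symm.of_dvd hpL').trans huc2
  have hv2 : v ≡ 1 [ZMOD (p : ℤ) ^ 2] :=
    (((Int.modEq_iff_dvd).2 hv).symm.of_dvd hpL').trans hvc2
  have hG' : GoodP a b p u v := hG.transfer hu2 hv2
  -- the value
  set F := FF a b u v with hF
  have hFm : F₁ ≡ F [ZMOD L₁] := (FF_modEq hu1 hv1).symm
  obtain ⟨k, hk⟩ := (Int.modEq_iff_dvd).1 hFm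
  have hFe : F = F₁ * (1 + 8 * M * k) := by
    rw [hL₁] at hk; linear_combination hk
  have hRl : 0 < R * Real.sqrt l := by
    have : (0 : ℝ) < l := by exact_mod_cast hl.pos
    positivity
  have hKK : 0 < KK a b u v * KK a b u₁ v₁ :=
    hcone (R * Real.sqrt l) u v hRl (by rw [← mul_assoc]; exact hdu) (by rw [← mul_assoc]; exact hdv)
  have hSpos : 0 < SS u v := by
    have : u ≠ 0 := by
      rintro h
      exact hG'.hu (by rw [h]; exact dvd_zero _)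
    simp only [SS]; positivity
  have hS₁pos : 0 < SS u₁ v₁ := by
    simp only [SS]
    rcases hne with h | h
    · positivity
    · positivity
  have hFF : 0 < F * F₁ := by
    have : F * F₁ = (a * b) ^ 2 * (SS u v * SS u₁ v₁) * (KK a b u v * KK a b u₁ v₁) := by
      rw [hF, hF₁]; simp only [FF]; ring
    rw [this]
    have := mul_ne_zero ha hb
    positivity
  have he0 : 0 < 1 + 8 * M * k := by
    rw [hFe] at hFF
    have : F₁ * (1 + 8 * M * k) * F₁ = F₁ ^ 2 * (1 + 8 * M * k) := by ring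
    rw [this] at hFF
    exact (mul_pos_iff_of_pos_left (by positivity)).1 hFF
  have hwF : w F = 1 := by
    rw [hFe, hw.tw F₁ _ h0 ⟨k, by ring⟩, Int.sign_eq_one_of_pos he0, h1, one_mul]
  have hF0 : F ≠ 0 := by rw [hFe]; exact mul_ne_zero h0 he0.ne'
  obtain ⟨d, r, hdr, hdsq, hr0⟩ := sqfree_part hF0
  have hd0 : d ≠ 0 := hdsq.ne_zero
  have hld : (l : ℤ) ∣ d := large_prime hl hla hlb hS1 hS2 (hF.symm.trans hdr)
  have hwd : w d = 1 := by rw [← hw.sq d r hd0 hr0, ← hdr]; exact hwF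
  have hNr : padicNorm p (r : ℚ) = 1 := by
    refine norm_one ?_
    rintro ⟨s, hs⟩
    have e1 := hG'.norm_F
    rw [← hF, hdr, hs] at e1
    have e2 : (((d * (p * s) ^ 2 : ℤ)) : ℚ) = (p : ℚ) * ((p : ℚ) * ((d * s ^ 2 : ℤ) : ℚ)) := by
      push_cast; ring
    rw [e2, padicNorm.mul, padicNorm.mul, padicNorm.padicNorm_p_of_prime] at e1
    have hp1 : (1 : ℚ) < p := by exact_mod_cast hp.one_lt
    have hinv : (p : ℚ)⁻¹ < 1 := inv_lt_one_of_one_lt₀ hp1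
    have hinv0 : (0 : ℚ) < (p : ℚ)⁻¹ := inv_pos.2 (by linarith)
    have hle := nint (p := p) (d * s ^ 2)
    have hnn := padicNorm.nonneg (p := p) ((d * s ^ 2 : ℤ) : ℚ)
    have : (p : ℚ)⁻¹ * padicNorm p ((d * s ^ 2 : ℤ) : ℚ) = 1 := by
      have h3 : (p : ℚ)⁻¹ * ((p : ℚ)⁻¹ * padicNorm p ((d * s ^ 2 : ℤ) : ℚ)) = (p : ℚ)⁻¹ * 1 := by
        rw [mul_one]; exact e1
      exact mul_left_cancel₀ hinv0.ne' h3
    nlinarith
  have hFd : |(d : ℝ)| ≤ |(F : ℝ)| := by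
    rw [hdr]; push_cast; rw [abs_mul]
    have : (1 : ℝ) ≤ |(r : ℝ) ^ 2| := by
      rw [abs_pow, sq_abs]
      have : 1 ≤ r ^ 2 := by have := sq_nonneg r; have := pow_ne_zero 2 hr0; omega
      exact_mod_cast this
    nlinarith [abs_nonneg (d : ℝ)]
  have hbd : |(F : ℝ)| ≤ C' * (l : ℝ) ^ 7 := by
    refine (FF_bound a b hsz).trans (le_of_eq ?_)
    rw [hC']; ring
  have hC'0 : 0 ≤ C' * (l : ℝ) ^ 7 := le_trans (abs_nonneg _) hbd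
  rcases fund_of_sqfree hdsq with hf | hf
  · refine ⟨d, hf, hwd, fam_rank hG' hroot (m := r) ?_ hNr, hd0, hld, ?_⟩
    · rw [← hF, hdr]; push_cast; ring
    · linarith
  · refine ⟨4 * d, hf, ?_, fam_rank hG' hroot (m := r / 2) ?_ ?_, by omega,
      Dvd.dvd.mul_left hld 4, ?_⟩
    · have := hw.sq d 2 hd0 two_ne_zero
      rw [← hwd, ← this]; congr 1; ring
    · rw [← hF, hdr]; push_cast; ring
    · rw [padicNorm.div, hNr]
      have : padicNorm p (2 : ℚ) = 1 := by exact_mod_cast norm_one hG.two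
      rw [this]; norm_num
    · push_cast
      rw [abs_mul]
      have : |(4 : ℝ)| = 4 := abs_of_pos (by norm_num)
      rw [this]
      linarith

end Pool.Agent.Helper19.TW
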