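import Pool.Agent.Helper19.TW.Family

namespace Pool.Agent.Helper19.TW

/-- the form of degree 12 on the line `v = 1` as a function of `W` -/
lemma KK_one (a b t : ℤ) :
    KK a b t 1 = b ^ 2 * (t ^ 4 + t ^ 2 + 1) ^ 3 + a ^ 3 * (t ^ 4 + t ^ 2) ^ 2 := by
  simp only [KK, WW, SS]; ring

/-- Taylor expansion -/
lemma KK_taylor (a b t h : ℤ) : ∃ R : ℤ, KK a b (t + h) 1 = KK a b t 1 +
    h * ((3 * b ^ 2 * (t ^ 4 + t ^ 2 + 1) ^ 2 + 2 * a ^ 3 * (t ^ 4 + t ^ 2)) * (4 * t ^ 3 + 2 * t))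
    + h ^ 2 * R := by
  have hW : (t + h) ^ 4 + (t + h) ^ 2 = t ^ 4 + t ^ 2 +
      h * ((4 * t ^ 3 + 2 * t) + h * (6 * t ^ 2 + 4 * t * h + h ^ 2 + 1)) := by ring
  rw [KK_one, KK_one, hW]
  generalize 6 * t ^ 2 + 4 * t * h + h ^ 2 + 1 = R1
  generalize 4 * t ^ 3 + 2 * t = g
  generalize t ^ 4 + t ^ 2 = V
  refine ⟨(3 * b ^ 2 * (V + 1) ^ 2 + 2 * a ^ 3 * V) * R1 + 3 * b ^ 2 * (V + 1) * (g + h * R1) ^ 2
    + b ^ 2 * h * (g + h * R1) ^ 3 + a ^ 3 * (g + h * R1) ^ 2, by ring⟩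

/-- the derivative is a unit at a zero -/
lemma deriv_unit {a b t : ℤ} {p : ℕ} (hp : p.Prime) (h2 : ¬ (p : ℤ) ∣ 2) (ha : ¬ (p : ℤ) ∣ a)
    (hb : ¬ (p : ℤ) ∣ b) (hD : ¬ (p : ℤ) ∣ 4 * a ^ 3 + 27 * b ^ 2) (ht : ¬ (p : ℤ) ∣ t)
    (h0 : (p : ℤ) ∣ KK a b t 1) :
    ¬ (p : ℤ) ∣ (3 * b ^ 2 * (t ^ 4 + t ^ 2 + 1) ^ 2 + 2 * a ^ 3 * (t ^ 4 + t ^ 2))
      * (4 * t ^ 3 + 2 * t) := by
  have hpI : Prime (p : ℤ) := Nat.prime_iff_prime_int.1 hp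
  rw [KK_one] at h0
  intro h
  rcases hpI.dvd_or_dvd h with h1 | h1
  · generalize hV : t ^ 4 + t ^ 2 = V at *
    have e : a ^ 3 * (V * (V - 2)) = 3 * (b ^ 2 * (V + 1) ^ 3 + a ^ 3 * V ^ 2) -
        (V + 1) * (3 * b ^ 2 * (V + 1) ^ 2 + 2 * a ^ 3 * V) := by ring
    have h3 : (p : ℤ) ∣ a ^ 3 * (V * (V - 2)) := by
      rw [e]; exact dvd_sub (Dvd.dvd.mul_left h0 _) (Dvd.dvd.mul_left h1 _)
    rcases hpI.dvd_or_dvd h3 with h4 | h4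
    · exact ha (hpI.dvd_of_dvd_pow h4)
    rcases hpI.dvd_or_dvd h4 with h5 | h5
    · have : (p : ℤ) ∣ b ^ 2 := by
        have e2 : b ^ 2 = (b ^ 2 * (V + 1) ^ 3 + a ^ 3 * V ^ 2) -
          V * (b ^ 2 * (V ^ 2 + 3 * V + 3) + a ^ 3 * V) := by ring
        rw [e2]; exact dvd_sub h0 (Dvd.dvd.mul_right h5 _)
      exact hb (hpI.dvd_of_dvd_pow this)
    · have : (p : ℤ) ∣ 4 * a ^ 3 + 27 * b ^ 2 := by
        have e2 : 4 * a ^ 3 + 27 * b ^ 2 = (b ^ 2 * (V + 1) ^ 3 + a ^ 3 * V ^ 2) -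
          (V - 2) * (b ^ 2 * (V ^ 2 + 5 * V + 13) + a ^ 3 * (V + 2)) := by ring
        rw [e2]; exact dvd_sub h0 (Dvd.dvd.mul_right h5 _)
      exact hD this
  · have e : 4 * t ^ 3 + 2 * t = 2 * (t * (2 * t ^ 2 + 1)) := by ring
    rw [e] at h1
    rcases hpI.dvd_or_dvd h1 with h3 | h3
    · exact h2 h3
    rcases hpI.dvd_or_dvd h3 with h4 | h4
    · exact ht h4
    · apply hD
      have e2 : 4 * a ^ 3 + 27 * b ^ 2 = 64 * (b ^ 2 * (t ^ 4 + t ^ 2 + 1) ^ 3 +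
          a ^ 3 * (t ^ 4 + t ^ 2) ^ 2) - (2 * t ^ 2 + 1) * ((2 * t ^ 2 + 1) *
          (b ^ 2 * ((2 * t ^ 2 + 1) ^ 4 + 9 * (2 * t ^ 2 + 1) ^ 2 + 27) +
            4 * a ^ 3 * ((2 * t ^ 2 + 1) ^ 2 - 2))) := by ring
      rw [e2]; exact dvd_sub (Dvd.dvd.mul_left h0 _) (Dvd.dvd.mul_right h4 _)

/-- existence of the auxiliary prime and of the residue class -/
theorem exists_class {a b : ℤ} (ha : a ≠ 0) (hb : b ≠ 0) (hD : 4 * a ^ 3 + 27 * b ^ 2 ≠ 0)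
    {M : ℤ} (hM : M ≠ 0) : ∃ p : ℕ, p.Prime ∧ ¬ (p : ℤ) ∣ M ∧ ∃ t : ℤ, GoodP a b p t 1 := by
  set e : ℤ := (4 * a ^ 3 + 27 * b ^ 2) * M with he
  have he0 : e ≠ 0 := mul_ne_zero hD hM
  set n : ℤ := 2 * a * e with hn
  set t : ℤ := b * n with ht
  set q : ℤ := (t ^ 4 + t ^ 2 + 1) ^ 3 + a ^ 3 * b ^ 2 * n ^ 4 * (t ^ 2 + 1) ^ 2 with hq
  have hKq : KK a b t 1 = b ^ 2 * q := by
    rw [KK_one, hq, ht]; ring
  have hq1 : 1 < q := by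
    have e1 : 1 ≤ e ^ 2 := by have := sq_nonneg e; have := pow_ne_zero 2 he0; omega
    have a1 : 1 ≤ a ^ 2 := by have := sq_nonneg a; have := pow_ne_zero 2 ha; omega
    have b1 : 1 ≤ b ^ 2 := by have := sq_nonneg b; have := pow_ne_zero 2 hb; omega
    have n1 : 4 * a ^ 2 ≤ n ^ 2 := by rw [hn]; nlinarith
    have n0 : 0 ≤ n ^ 2 := sq_nonneg n
    set A : ℤ := t ^ 2 with hA
    have hAn : n ^ 2 ≤ A := by rw [hA, ht, mul_pow]; nlinarith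
    have hA4 : 4 ≤ A := by nlinarith
    have eq : q = (A ^ 2 + A + 1) ^ 3 + a ^ 3 * n ^ 2 * (A * (A + 1) ^ 2) := by
      rw [hq, hA, ht]; ring
    -- |a|^3 ≤ a^4
    have ha3 : -(a ^ 4) ≤ a ^ 3 := by nlinarith [sq_nonneg (a ^ 2), sq_nonneg (a * (a + 1)), sq_nonneg a, mul_nonneg (sq_nonneg a) (sub_nonneg.2 a1), sq_nonneg (a^2 + a)]
    have ha4 : a ^ 4 * n ^ 2 * 16 ≤ A ^ 2 * A := by
      have h1 : 16 * a ^ 4 ≤ A ^ 2 := by nlinarith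
      nlinarith
    have h5 : -(A ^ 3) ≤ 16 * (a ^ 3 * n ^ 2) := by nlinarith
    have hpos : 0 ≤ A * (A + 1) ^ 2 := by positivity
    have h6 : -(A ^ 3 * (A * (A + 1) ^ 2)) ≤ 16 * (a ^ 3 * n ^ 2 * (A * (A + 1) ^ 2)) := by
      nlinarith
    have h7 : A ^ 3 * (A * (A + 1) ^ 2) + 16 < 16 * (A ^ 2 + A + 1) ^ 3 := by
      have : 0 < A := by linarith
      have e7 : 16 * (A ^ 2 + A + 1) ^ 3 - (A ^ 3 * (A * (A + 1) ^ 2) + 16) =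
        15 * A ^ 6 + 46 * A ^ 5 + 95 * A ^ 4 + 112 * A ^ 3 + 96 * A ^ 2 + 48 * A := by ring
      have : 0 < 15 * A ^ 6 + 46 * A ^ 5 + 95 * A ^ 4 + 112 * A ^ 3 + 96 * A ^ 2 + 48 * A := by
        positivity
      linarith
    rw [eq]
    linarith
  obtain ⟨p, hp, hpq⟩ := Nat.exists_prime_and_dvd (n := q.natAbs) (by omega)
  have hpq' : (p : ℤ) ∣ q := Int.natCast_dvd.2 hpq
  have hpI : Prime (p : ℤ) := Nat.prime_iff_prime_int.1 hp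
  have hpt : ¬ (p : ℤ) ∣ t := by
    intro h
    have e1 : (1 : ℤ) = q - t * ((t ^ 3 + t) * ((t ^ 4 + t ^ 2) ^ 2 + 3 * (t ^ 4 + t ^ 2) + 3) +
        a ^ 3 * b * n ^ 3 * (t ^ 2 + 1) ^ 2) := by
      rw [hq, ht]; ring
    have : (p : ℤ) ∣ 1 := by rw [e1]; exact dvd_sub hpq' (Dvd.dvd.mul_right h _)
    exact hpI.not_dvd_one this
  have f2 : ¬ (p : ℤ) ∣ 2 := fun h => hpt (h.trans ⟨b * a * e, by rw [ht, hn]; ring⟩)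
  have fa : ¬ (p : ℤ) ∣ a := fun h => hpt (h.trans ⟨b * 2 * e, by rw [ht, hn]; ring⟩)
  have fb : ¬ (p : ℤ) ∣ b := fun h => hpt (h.trans ⟨n, by rw [ht]⟩)
  have fD : ¬ (p : ℤ) ∣ 4 * a ^ 3 + 27 * b ^ 2 :=
    fun h => hpt (h.trans ⟨b * 2 * a * M, by rw [ht, hn, he]; ring⟩)
  have fM : ¬ (p : ℤ) ∣ M :=
    fun h => hpt (h.trans ⟨b * 2 * a * (4 * a ^ 3 + 27 * b ^ 2), by rw [ht, hn, he]; ring⟩)
  have hK : (p : ℤ) ∣ KK a b t 1 := by rw [hKq]; exact Dvd.dvd.mul_left hpq' _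
  refine ⟨p, hp, fM, ?_⟩
  by_cases hK2 : (p : ℤ) ^ 2 ∣ KK a b t 1
  · refine ⟨t + p, f2, fa, fb, fD, ?_, hpI.not_dvd_one, ?_, ?_⟩
    · intro h
      exact hpt ((Int.dvd_add_left (dvd_refl _)).1 h)
    · obtain ⟨R, hR⟩ := KK_taylor a b t p
      rw [hR]
      refine dvd_add (dvd_add hK (Dvd.intro _ rfl)) ?_
      rw [pow_two, mul_assoc]
      exact Dvd.intro _ rfl
    · intro h
      obtain ⟨R, hR⟩ := KK_taylor a b t p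
      rw [hR] at h
      have h3 : (p : ℤ) ^ 2 ∣ (p : ℤ) * ((3 * b ^ 2 * (t ^ 4 + t ^ 2 + 1) ^ 2 +
          2 * a ^ 3 * (t ^ 4 + t ^ 2)) * (4 * t ^ 3 + 2 * t)) := by
        have h4 := dvd_sub (dvd_sub h (Dvd.intro R rfl)) hK2
        rwa [add_sub_cancel_right, add_sub_cancel_left] at h4
      rw [pow_two] at h3
      exact deriv_unit hp f2 fa fb fD hpt hK ((mul_dvd_mul_iff_left hpI.ne_zero).1 h3)
  · exact ⟨t, f2, fa, fb, fD, hpt, hpI.not_dvd_one, hK, hK2⟩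

end Pool.Agent.Helper19.TW
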