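import Pool.Agent.Helper19.TW.Family

namespace Pool.Agent.Helper19.TW

variable {a b : ℤ} {p : ℕ} {u v : ℤ}

lemma norm_one [hp : Fact p.Prime] {z : ℤ} (h : ¬ (p : ℤ) ∣ z) : padicNorm p (z : ℚ) = 1 :=
  (padicNorm.int_eq_one_iff z).2 h

lemma GoodP.norm_K [hp : Fact p.Prime] (h : GoodP a b p u v) :
    padicNorm p (KK a b u v : ℚ) = (p : ℚ)⁻¹ := by
  obtain ⟨k, hk⟩ := h.h1
  have hk' : ¬ (p : ℤ) ∣ k := by
    rintro ⟨j, hj⟩
    apply h.h2
    exact ⟨j, by rw [hk, hj]; ring⟩
  rw [hk]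
  push_cast
  rw [padicNorm.mul, norm_one hk', mul_one, padicNorm.padicNorm_p_of_prime]

lemma GoodP.norm_F [hp : Fact p.Prime] (h : GoodP a b p u v) :
    padicNorm p (FF a b u v : ℚ) = (p : ℚ)⁻¹ := by
  simp only [FF]
  push_cast
  rw [padicNorm.mul, padicNorm.mul, padicNorm.neg, padicNorm.mul, norm_one h.ha, norm_one h.hb,
    norm_one (h.nS hp.out), h.norm_K]
  ring

/-- the rank part for one member of the family -/
theorem fam_rank [hp : Fact p.Prime] (h : GoodP a b p u v)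
    (hroot : ∀ r : ℚ, r ^ 3 + a * r + b ≠ 0) {d : ℤ} {m : ℚ}
    (hm : (FF a b u v : ℚ) = d * m ^ 2) (hN : padicNorm p m = 1) :
    ∃ P Q : (tw a b d).toAffine.Point, LinearIndependent ℤ ![P, Q] := by
  have hpp := hp.out
  have ne0 {z : ℤ} (hz : ¬ (p : ℤ) ∣ z) : z ≠ 0 := by rintro rfl; exact hz (dvd_zero _)
  have ha0 := ne0 h.ha
  have hb0 := ne0 h.hb
  have hu0 := ne0 h.hu
  have hv0 := ne0 h.hv
  have hS0 := ne0 (h.nS hpp)
  have hW0 := ne0 (h.nW hpp)
  have hm0 : m ≠ 0 := by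
    rintro rfl
    simp at hN
  have hd : padicNorm p (d : ℚ) = (p : ℚ)⁻¹ := by
    have := h.norm_F
    rw [hm, padicNorm.mul, pow_two, padicNorm.mul, hN] at this
    simpa using this
  have hY : padicNorm p (Y1 a u v) = 1 := by
    simp only [Y1]
    rw [padicNorm.div, padicNorm.one, pow_two, pow_succ, pow_two, pow_two]
    simp only [padicNorm.mul, norm_one h.ha, norm_one h.hv, norm_one (h.nS hpp)]
    norm_num
  have hY' : padicNorm p (Y1 a v u) = 1 := by
    simp only [Y1]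
    rw [padicNorm.div, padicNorm.one, pow_two, pow_succ, pow_two, pow_two]
    simp only [padicNorm.mul, norm_one h.ha, norm_one h.hu, norm_one (h.symm.nS hpp)]
    norm_num
  have hX : padicNorm p (X1 a b u v) = 1 := by
    simp only [X1]
    rw [padicNorm.div, pow_two]
    simp only [padicNorm.mul, padicNorm.neg, norm_one h.ha, norm_one h.hb, norm_one h.hv,
      norm_one (h.nS hpp), norm_one (h.nW hpp)]
    norm_num
  have hX' : padicNorm p (X1 a b v u) = 1 := by
    simp only [X1]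
    rw [padicNorm.div, pow_two]
    simp only [padicNorm.mul, padicNorm.neg, norm_one h.ha, norm_one h.hb, norm_one h.hu,
      norm_one (h.symm.nS hpp), norm_one (h.symm.nW hpp)]
    norm_num
  have hdiff : X1 a b u v - X1 a b v u =
      (b : ℚ) * WW u v * ((v ^ 2 - u ^ 2 : ℤ) : ℚ) / (a * SS u v * (u * u) * (v * v)) := by
    have ha' : (a : ℚ) ≠ 0 := by exact_mod_cast ha0
    have hv' : (v : ℚ) ≠ 0 := by exact_mod_cast hv0
    have hu' : (u : ℚ) ≠ 0 := by exact_mod_cast hu0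
    have hS' : ((SS u v : ℤ) : ℚ) ≠ 0 := by exact_mod_cast hS0
    simp only [X1]
    rw [SS_comm u v, WW_comm u v]
    push_cast
    field_simp
    ring
  have hXX : padicNorm p (X1 a b u v - X1 a b v u) = 1 := by
    rw [hdiff, padicNorm.div]
    simp only [padicNorm.mul, norm_one h.ha, norm_one h.hb, norm_one h.hu, norm_one h.hv,
      norm_one (h.nS hpp), norm_one (h.nW hpp), norm_one (h.nd hpp)]
    norm_num
  have e1 := point_eq (a := a) (b := b) ha0 hv0 hS0
  have e2 := point_eq (a := a) (b := b) (u := v) (v := u) ha0 hu0 (by rw [SS_comm]; exact hS0)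
  rw [FF_comm] at e2
  rw [hm] at e1 e2
  refine rank_two (x₁ := X1 a b u v) (x₂ := X1 a b v u) (y₁ := m * Y1 a u v) (y₂ := m * Y1 a v u)
    hd (norm_one h.hD) hroot (by rw [← e1]; ring) (by rw [← e2]; ring) hX.le hX'.le ?_ ?_ hXX
  · rw [padicNorm.mul, hN, hY]; norm_num
  · rw [padicNorm.mul, hN, hY']; norm_num

end Pool.Agent.Helper19.TW
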