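import Pool.Agent.Helper19.TW.Rank4

namespace Pool.Agent.Helper19.TW

/-- the two factors of the family (Mestre, Stewart and Top) -/
def WW (u v : ℤ) : ℤ := u ^ 4 + u ^ 2 * v ^ 2 + v ^ 4

/-- sum of squares -/
def SS (u v : ℤ) : ℤ := u ^ 2 + v ^ 2

/-- form of degree 12 -/
def KK (a b u v : ℤ) : ℤ := b ^ 2 * (WW u v) ^ 3 + a ^ 3 * u ^ 4 * v ^ 4 * (SS u v) ^ 2

/-- form of degree 14 -/
def FF (a b u v : ℤ) : ℤ := -(a * b) * SS u v * KK a b u v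

lemma KK_eq (a b u v : ℤ) :
    KK a b u v = b ^ 2 * (u ^ 4 + u ^ 2 * v ^ 2 + v ^ 4) ^ 3
      + a ^ 3 * u ^ 4 * v ^ 4 * (u ^ 2 + v ^ 2) ^ 2 := rfl

/-- a prime which divides the form of degree 12 exactly once and is good otherwise -/
structure GoodP (a b : ℤ) (p : ℕ) (u v : ℤ) : Prop where
  two : ¬ (p : ℤ) ∣ 2
  ha : ¬ (p : ℤ) ∣ a
  hb : ¬ (p : ℤ) ∣ b
  hD : ¬ (p : ℤ) ∣ 4 * a ^ 3 + 27 * b ^ 2
  hu : ¬ (p : ℤ) ∣ u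
  hv : ¬ (p : ℤ) ∣ v
  h1 : (p : ℤ) ∣ KK a b u v
  h2 : ¬ (p : ℤ) ^ 2 ∣ KK a b u v

variable {a b : ℤ} {p : ℕ} {u v : ℤ}

lemma GoodP.nS (hp : p.Prime) (h : GoodP a b p u v) : ¬ (p : ℤ) ∣ SS u v := by
  have hpI : Prime (p : ℤ) := Nat.prime_iff_prime_int.1 hp
  intro hs
  have e : KK a b u v = SS u v * ((b ^ 2 * (WW u v ^ 2 - WW u v * (u ^ 2 * v ^ 2)
      + (u ^ 2 * v ^ 2) ^ 2)) * SS u v + a ^ 3 * u ^ 4 * v ^ 4 * SS u v)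
      - b ^ 2 * (u ^ 2 * v ^ 2) ^ 3 := by
    simp only [KK, WW, SS]; ring
  have h3 : (p : ℤ) ∣ b ^ 2 * (u ^ 2 * v ^ 2) ^ 3 := by
    have := dvd_sub (Dvd.dvd.mul_right hs ((b ^ 2 * (WW u v ^ 2 - WW u v * (u ^ 2 * v ^ 2)
      + (u ^ 2 * v ^ 2) ^ 2)) * SS u v + a ^ 3 * u ^ 4 * v ^ 4 * SS u v)) h.h1
    have e2 : SS u v * ((b ^ 2 * (WW u v ^ 2 - WW u v * (u ^ 2 * v ^ 2)
      + (u ^ 2 * v ^ 2) ^ 2)) * SS u v + a ^ 3 * u ^ 4 * v ^ 4 * SS u v) - KK a b u v =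
      b ^ 2 * (u ^ 2 * v ^ 2) ^ 3 := by rw [e]; ring
    rwa [e2] at this
  rcases hpI.dvd_or_dvd h3 with h4 | h4
  · exact h.hb (hpI.dvd_of_dvd_pow h4)
  · rcases hpI.dvd_or_dvd (hpI.dvd_of_dvd_pow h4) with h5 | h5
    · exact h.hu (hpI.dvd_of_dvd_pow h5)
    · exact h.hv (hpI.dvd_of_dvd_pow h5)

lemma GoodP.nW (hp : p.Prime) (h : GoodP a b p u v) : ¬ (p : ℤ) ∣ WW u v := by
  have hpI : Prime (p : ℤ) := Nat.prime_iff_prime_int.1 hp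
  intro hw
  have h3 : (p : ℤ) ∣ a ^ 3 * u ^ 4 * v ^ 4 * SS u v ^ 2 := by
    have := dvd_sub h.h1 (Dvd.dvd.mul_left (dvd_pow hw (three_ne_zero)) (b ^ 2))
    have e : KK a b u v - b ^ 2 * WW u v ^ 3 = a ^ 3 * u ^ 4 * v ^ 4 * SS u v ^ 2 := by
      simp only [KK]; ring
    rwa [e] at this
  rcases hpI.dvd_or_dvd h3 with h4 | h4
  · rcases hpI.dvd_or_dvd h4 with h5 | h5
    · rcases hpI.dvd_or_dvd h5 with h6 | h6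
      · exact h.ha (hpI.dvd_of_dvd_pow h6)
      · exact h.hu (hpI.dvd_of_dvd_pow h6)
    · exact h.hv (hpI.dvd_of_dvd_pow h5)
  · exact h.nS hp (hpI.dvd_of_dvd_pow h4)

lemma GoodP.nd (hp : p.Prime) (h : GoodP a b p u v) : ¬ (p : ℤ) ∣ v ^ 2 - u ^ 2 := by
  have hpI : Prime (p : ℤ) := Nat.prime_iff_prime_int.1 hp
  intro hd
  obtain ⟨k, hk⟩ := hd
  have ev : v ^ 2 = u ^ 2 + p * k := by linarith
  have hdiv : (p : ℤ) ∣ KK a b u v - (u ^ 2) ^ 6 * (4 * a ^ 3 + 27 * b ^ 2) := by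
    have e1 : KK a b u v = b ^ 2 * ((u ^ 2) ^ 2 + (u ^ 2) * (v ^ 2) + (v ^ 2) ^ 2) ^ 3
        + a ^ 3 * (u ^ 2) ^ 2 * (v ^ 2) ^ 2 * (u ^ 2 + v ^ 2) ^ 2 := by
      simp only [KK, WW, SS]; ring
    rw [e1, ev]
    refine (Int.modEq_iff_dvd).1 ?_
    have h0 : u ^ 2 + p * k ≡ u ^ 2 [ZMOD p] := by
      refine (Int.modEq_iff_dvd).2 ?_
      exact ⟨-k, by ring⟩
    have h1 : b ^ 2 * ((u ^ 2) ^ 2 + (u ^ 2) * (u ^ 2 + p * k) + (u ^ 2 + p * k) ^ 2) ^ 3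
        + a ^ 3 * (u ^ 2) ^ 2 * (u ^ 2 + p * k) ^ 2 * (u ^ 2 + (u ^ 2 + p * k)) ^ 2 ≡
        b ^ 2 * ((u ^ 2) ^ 2 + (u ^ 2) * (u ^ 2) + (u ^ 2) ^ 2) ^ 3
        + a ^ 3 * (u ^ 2) ^ 2 * (u ^ 2) ^ 2 * (u ^ 2 + (u ^ 2)) ^ 2 [ZMOD p] := by
      gcongr
    have e2 : b ^ 2 * ((u ^ 2) ^ 2 + (u ^ 2) * (u ^ 2) + (u ^ 2) ^ 2) ^ 3
        + a ^ 3 * (u ^ 2) ^ 2 * (u ^ 2) ^ 2 * (u ^ 2 + (u ^ 2)) ^ 2 =
        (u ^ 2) ^ 6 * (4 * a ^ 3 + 27 * b ^ 2) := by ring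
    rw [e2] at h1
    exact h1.symm
  have h3 : (p : ℤ) ∣ (u ^ 2) ^ 6 * (4 * a ^ 3 + 27 * b ^ 2) := by
    have := dvd_sub h.h1 hdiv
    rwa [sub_sub_cancel] at this
  rcases hpI.dvd_or_dvd h3 with h4 | h4
  · exact h.hu (hpI.dvd_of_dvd_pow (hpI.dvd_of_dvd_pow h4))
  · exact h.hD h4

/-- the first coordinate -/
def X1 (a b u v : ℤ) : ℚ := -(b : ℚ) * WW u v / (a * v ^ 2 * SS u v)

/-- the second coordinate -/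
def Y1 (a u v : ℤ) : ℚ := 1 / ((a : ℚ) ^ 2 * v ^ 3 * SS u v ^ 2)

lemma point_eq (ha : a ≠ 0) (hv : v ≠ 0) (hS : SS u v ≠ 0) :
    (FF a b u v : ℚ) * Y1 a u v ^ 2 = X1 a b u v ^ 3 + a * X1 a b u v + b := by
  have ha' : (a : ℚ) ≠ 0 := by exact_mod_cast ha
  have hv' : (v : ℚ) ≠ 0 := by exact_mod_cast hv
  have hS' : ((SS u v : ℤ) : ℚ) ≠ 0 := by exact_mod_cast hS
  have hS2 : (u : ℚ) ^ 2 + v ^ 2 ≠ 0 := by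
    have : ((SS u v : ℤ) : ℚ) = (u : ℚ) ^ 2 + v ^ 2 := by simp [SS]
    rwa [this] at hS'
  simp only [FF, X1, Y1, KK, WW, SS]
  push_cast
  field_simp
  ring

lemma SS_comm (u v : ℤ) : SS v u = SS u v := by simp only [SS]; ring
lemma WW_comm (u v : ℤ) : WW v u = WW u v := by simp only [WW]; ring
lemma KK_comm (a b u v : ℤ) : KK a b v u = KK a b u v := by
  simp only [KK, WW, SS]; ring
lemma FF_comm (a b u v : ℤ) : FF a b v u = FF a b u v := by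
  simp only [FF, SS_comm u v, KK_comm a b u v]

lemma GoodP.symm (h : GoodP a b p u v) : GoodP a b p v u :=
  ⟨h.two, h.ha, h.hb, h.hD, h.hv, h.hu, by rw [KK_comm]; exact h.h1, by rw [KK_comm]; exact h.h2⟩

end Pool.Agent.Helper19.TW
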