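import Pool.Agent.Helper19.TW.Family

namespace Pool.Agent.Helper19.TW

/-- A sign function on the nonzero integers with the twisting property of the root numbers
`w(E_d)`: it depends only on `d` modulo squares, and `w (d e) = sign(e) w(d)` for all
`e ≡ 1 (mod 8 M)`. -/
structure RootLike (M : ℕ) (w : ℤ → ℤ) : Prop where
  pm : ∀ d, d ≠ 0 → w d = 1 ∨ w d = -1
  sq : ∀ d r, d ≠ 0 → r ≠ 0 → w (d * r ^ 2) = w d
  tw : ∀ d e, d ≠ 0 → (8 * M : ℤ) ∣ e - 1 → w (d * e) = e.sign * w d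

lemma neg_value {a b : ℤ} (hb : b ≠ 0) (hD : 4 * a ^ 3 + 27 * b ^ 2 < 0) {u : ℤ}
    (hu : 6885 * b ^ 2 < u) : KK a b u (u + 1) < 0 := by
  have b1 : 1 ≤ b ^ 2 := by have := sq_nonneg b; have := pow_ne_zero 2 hb; omega
  have u1 : 0 < u := by nlinarith
  set v := u + 1 with hv
  have hW : WW u v ≤ 3 * v ^ 4 := by
    simp only [WW]
    have h1 : u ^ 2 ≤ v ^ 2 := by nlinarith
    have h2 : u ^ 4 ≤ v ^ 4 := by nlinarith [sq_nonneg u, sq_nonneg v]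
    nlinarith [sq_nonneg v]
  have hW0 : 0 ≤ WW u v := by simp only [WW]; positivity
  have hW3 : WW u v ^ 3 ≤ (3 * v ^ 4) ^ 3 := pow_le_pow_left₀ hW0 hW 3
  have hS : 2 * u ^ 2 ≤ SS u v := by simp only [SS]; nlinarith
  have hS2 : (2 * u ^ 2) ^ 2 ≤ SS u v ^ 2 := pow_le_pow_left₀ (by positivity) hS 2
  have h8 : v ^ 8 - u ^ 8 ≤ 255 * u ^ 7 := by
    rw [hv]
    have : (u + 1) ^ 8 - u ^ 8 = 8 * u ^ 7 + 28 * u ^ 6 + 56 * u ^ 5 + 70 * u ^ 4 + 56 * u ^ 3 +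
      28 * u ^ 2 + 8 * u + 1 := by ring
    rw [this]
    have k (i : ℕ) (hi : i ≤ 7) : u ^ i ≤ u ^ 7 := pow_le_pow_right₀ (by omega) hi
    have k1 := k 6 (by norm_num)
    have k2 := k 5 (by norm_num)
    have k3 := k 4 (by norm_num)
    have k4 := k 3 (by norm_num)
    have k5 := k 2 (by norm_num)
    have k6 := k 1 (by norm_num)
    have k7 := k 0 (by norm_num)
    rw [pow_one] at k6
    rw [pow_zero] at k7
    linarith
  have h9 : 27 * b ^ 2 * v ^ 8 + 4 * a ^ 3 * u ^ 8 < 0 := by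
    have e1 : 4 * a ^ 3 ≤ -(27 * b ^ 2) - 1 := by omega
    have u8 : 0 < u ^ 7 := by positivity
    have e2 : 27 * b ^ 2 * (v ^ 8 - u ^ 8) ≤ 27 * b ^ 2 * (255 * u ^ 7) := by
      apply mul_le_mul_of_nonneg_left h8; positivity
    have e3 : 27 * b ^ 2 * (255 * u ^ 7) < u ^ 8 := by
      have : u ^ 8 = u * u ^ 7 := by ring
      rw [this]; nlinarith
    have e4 : 4 * a ^ 3 * u ^ 8 ≤ (-(27 * b ^ 2) - 1) * u ^ 8 := by
      apply mul_le_mul_of_nonneg_right e1; positivity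
    nlinarith
  have a3 : a ^ 3 ≤ 0 := by nlinarith
  have h10 : KK a b u v ≤ v ^ 4 * (27 * b ^ 2 * v ^ 8 + 4 * a ^ 3 * u ^ 8) := by
    have e1 : b ^ 2 * WW u v ^ 3 ≤ b ^ 2 * (3 * v ^ 4) ^ 3 :=
      mul_le_mul_of_nonneg_left hW3 (by positivity)
    have e2 : a ^ 3 * (u ^ 4 * v ^ 4 * SS u v ^ 2) ≤ a ^ 3 * (u ^ 4 * v ^ 4 * (2 * u ^ 2) ^ 2) := by
      apply mul_le_mul_of_nonpos_left _ a3
      apply mul_le_mul_of_nonneg_left hS2; positivity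
    simp only [KK]
    calc b ^ 2 * WW u v ^ 3 + a ^ 3 * u ^ 4 * v ^ 4 * SS u v ^ 2
        = b ^ 2 * WW u v ^ 3 + a ^ 3 * (u ^ 4 * v ^ 4 * SS u v ^ 2) := by ring
      _ ≤ b ^ 2 * (3 * v ^ 4) ^ 3 + a ^ 3 * (u ^ 4 * v ^ 4 * (2 * u ^ 2) ^ 2) := add_le_add e1 e2
      _ = v ^ 4 * (27 * b ^ 2 * v ^ 8 + 4 * a ^ 3 * u ^ 8) := by ring
  have v4 : 0 < v ^ 4 := by positivity
  have : v ^ 4 * (27 * b ^ 2 * v ^ 8 + 4 * a ^ 3 * u ^ 8) < 0 := mul_neg_of_pos_of_neg v4 h9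
  linarith

lemma FF_zero_one (a b : ℤ) : FF a b 0 1 = -(a * b) * b ^ 2 := by
  simp only [FF, KK, WW, SS]; ring

/-- with three real roots both signs occur -/
theorem base {a b : ℤ} (ha : a ≠ 0) (hb : b ≠ 0) (hD : 4 * a ^ 3 + 27 * b ^ 2 < 0) {M : ℕ}
    (hM : 1 ≤ M) {w : ℤ → ℤ} (hw : RootLike M w) :
    ∃ u v : ℤ, FF a b u v ≠ 0 ∧ w (FF a b u v) = 1 := by
  have h0 : FF a b 0 1 ≠ 0 := by
    rw [FF_zero_one]
    exact mul_ne_zero (neg_ne_zero.2 (mul_ne_zero ha hb)) (pow_ne_zero 2 hb)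
  rcases hw.pm _ h0 with h1 | h1
  · exact ⟨0, 1, h0, h1⟩
  · set u : ℤ := 8 * M * (6885 * b ^ 2) with hu
    have b1 : 1 ≤ b ^ 2 := by have := sq_nonneg b; have := pow_ne_zero 2 hb; omega
    have hM' : (1 : ℤ) ≤ M := by exact_mod_cast hM
    have hu6 : 6885 * b ^ 2 < u := by rw [hu]; nlinarith
    have hneg := neg_value hb hD hu6
    set e : ℤ := SS u (u + 1) * (WW u (u + 1) ^ 3 + a ^ 3 * (8 * M * (512 * (M : ℤ) ^ 3 *
      6885 ^ 4 * b ^ 6)) * (u + 1) ^ 4 * SS u (u + 1) ^ 2) with he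
    have hFe : FF a b u (u + 1) = FF a b 0 1 * e := by
      rw [FF_zero_one]
      simp only [FF]
      have : KK a b u (u + 1) = b ^ 2 * (WW u (u + 1) ^ 3 + a ^ 3 * (8 * M * (512 * (M : ℤ) ^ 3 *
        6885 ^ 4 * b ^ 6)) * (u + 1) ^ 4 * SS u (u + 1) ^ 2) := by
        simp only [KK]
        have hu4 : u ^ 4 = b ^ 2 * (8 * M * (512 * (M : ℤ) ^ 3 * 6885 ^ 4 * b ^ 6)) := by
          rw [hu]; ring
        rw [mul_assoc (a ^ 3) (u ^ 4), hu4]; ring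
      rw [this, he]; ring
    have hKb : KK a b u (u + 1) = b ^ 2 * (WW u (u + 1) ^ 3 + a ^ 3 * (8 * M * (512 * (M : ℤ) ^ 3 *
        6885 ^ 4 * b ^ 6)) * (u + 1) ^ 4 * SS u (u + 1) ^ 2) := by
      simp only [KK]
      have hu4 : u ^ 4 = b ^ 2 * (8 * M * (512 * (M : ℤ) ^ 3 * 6885 ^ 4 * b ^ 6)) := by
        rw [hu]; ring
      rw [mul_assoc (a ^ 3) (u ^ 4), hu4]; ring
    have hneg2 : WW u (u + 1) ^ 3 + a ^ 3 * (8 * M * (512 * (M : ℤ) ^ 3 *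
        6885 ^ 4 * b ^ 6)) * (u + 1) ^ 4 * SS u (u + 1) ^ 2 < 0 := by
      rw [hKb] at hneg
      by_contra hc
      push Not at hc
      have : 0 ≤ b ^ 2 * (WW u (u + 1) ^ 3 + a ^ 3 * (8 * M * (512 * (M : ℤ) ^ 3 *
        6885 ^ 4 * b ^ 6)) * (u + 1) ^ 4 * SS u (u + 1) ^ 2) := by positivity
      linarith
    have hSpos : 0 < SS u (u + 1) := by
      simp only [SS]
      have : 0 < u := by nlinarith
      positivity
    have heneg : e < 0 := mul_neg_of_pos_of_neg hSpos hneg2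
    have hdvd : (8 * M : ℤ) ∣ e - 1 := by
      have hu8 : u ≡ 0 [ZMOD (8 * M : ℤ)] := by
        rw [Int.modEq_zero_iff_dvd]; exact ⟨6885 * b ^ 2, hu⟩
      have h8 : (8 * M * (512 * (M : ℤ) ^ 3 * 6885 ^ 4 * b ^ 6)) ≡ 0 [ZMOD (8 * M : ℤ)] := by
        rw [Int.modEq_zero_iff_dvd]; exact ⟨_, rfl⟩
      have : e ≡ 1 [ZMOD (8 * M : ℤ)] := by
        rw [he]
        simp only [SS, WW]
        generalize 8 * M * (512 * (M : ℤ) ^ 3 * 6885 ^ 4 * b ^ 6) = z at *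
        calc (u ^ 2 + (u + 1) ^ 2) * ((u ^ 4 + u ^ 2 * (u + 1) ^ 2 + (u + 1) ^ 4) ^ 3 +
              a ^ 3 * z * (u + 1) ^ 4 * (u ^ 2 + (u + 1) ^ 2) ^ 2)
            ≡ (0 ^ 2 + (0 + 1) ^ 2) * ((0 ^ 4 + 0 ^ 2 * (0 + 1) ^ 2 + (0 + 1) ^ 4) ^ 3 +
              a ^ 3 * 0 * (0 + 1) ^ 4 * (0 ^ 2 + (0 + 1) ^ 2) ^ 2) [ZMOD (8 * M : ℤ)] := by
              gcongr
          _ = 1 := by ring
      exact (Int.modEq_iff_dvd).1 this.symm
    refine ⟨u, u + 1, ?_, ?_⟩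
    · rw [hFe]; exact mul_ne_zero h0 heneg.ne
    · rw [hFe, hw.tw _ _ h0 hdvd, h1, Int.sign_eq_neg_one_of_neg heneg]; norm_num

end Pool.Agent.Helper19.TW
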