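import Pool.Agent.Helper19.TW.FamRank
import Pool.Agent.Helper19.TW.Class
import Pool.Agent.Helper19.TW.Sign
import Pool.Agent.Helper8.TW.Gauss
import Pool.Agent.Helper8.TW.Sign

namespace Pool.Agent.Helper19.TW

/-- fundamental discriminants (`1` included) -/
def IsFund (d : ℤ) : Prop :=
  (d % 4 = 1 ∧ Squarefree d) ∨ ∃ m : ℤ, d = 4 * m ∧ (m % 4 = 2 ∨ m % 4 = 3) ∧ Squarefree m

lemma KK_modEq {a b u v u' v' n : ℤ} (hu : u ≡ u' [ZMOD n]) (hv : v ≡ v' [ZMOD n]) :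
    KK a b u v ≡ KK a b u' v' [ZMOD n] := by
  simp only [KK, WW, SS]
  gcongr

lemma FF_modEq {a b u v u' v' n : ℤ} (hu : u ≡ u' [ZMOD n]) (hv : v ≡ v' [ZMOD n]) :
    FF a b u v ≡ FF a b u' v' [ZMOD n] := by
  simp only [FF, KK, WW, SS]
  gcongr

/-- transfer of a good prime to the residue class -/
lemma GoodP.transfer {a b : ℤ} {p : ℕ} {u v u' v' : ℤ} (h : GoodP a b p u v)
    (hu : u' ≡ u [ZMOD (p : ℤ) ^ 2]) (hv : v' ≡ v [ZMOD (p : ℤ) ^ 2]) : GoodP a b p u' v' := by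
  have hpp : (p : ℤ) ∣ (p : ℤ) ^ 2 := dvd_pow_self _ two_ne_zero
  have hu1 : u' ≡ u [ZMOD (p : ℤ)] := hu.of_dvd hpp
  have hv1 : v' ≡ v [ZMOD (p : ℤ)] := hv.of_dvd hpp
  refine ⟨h.two, h.ha, h.hb, h.hD, ?_, ?_, ?_, ?_⟩
  · intro h1
    exact h.hu ((Int.modEq_zero_iff_dvd).1 (hu1.symm.trans ((Int.modEq_zero_iff_dvd).2 h1)))
  · intro h1
    exact h.hv ((Int.modEq_zero_iff_dvd).1 (hv1.symm.trans ((Int.modEq_zero_iff_dvd).2 h1)))
  · exact (Int.modEq_zero_iff_dvd).1 ((KK_modEq hu1 hv1).trans ((Int.modEq_zero_iff_dvd).2 h.h1))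
  · intro h1
    exact h.h2 ((Int.modEq_zero_iff_dvd).1 ((KK_modEq hu hv).symm.trans
      ((Int.modEq_zero_iff_dvd).2 h1)))

/-- every nonzero integer is a squarefree one times a square -/
lemma sqfree_part {F : ℤ} (hF : F ≠ 0) : ∃ d r : ℤ, F = d * r ^ 2 ∧ Squarefree d ∧ r ≠ 0 := by
  obtain ⟨m, r, h, hm⟩ := Nat.sq_mul_squarefree F.natAbs
  have hr : r ≠ 0 := by
    rintro rfl
    simp at h
    exact hF (by omega)
  refine ⟨F.sign * m, r, ?_, ?_, by exact_mod_cast hr⟩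
  · have : (F.natAbs : ℤ) = (r : ℤ) ^ 2 * m := by exact_mod_cast h.symm
    calc F = F.sign * F.natAbs := (Int.sign_mul_natAbs F).symm
      _ = F.sign * m * (r : ℤ) ^ 2 := by rw [this]; ring
  · rw [← Int.squarefree_natAbs, Int.natAbs_mul, Int.natAbs_sign_of_ne_zero hF, one_mul,
      Int.natAbs_natCast]
    exact hm

end Pool.Agent.Helper19.TW
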