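import Mathlib

/-!
Two points of a quadratic twist with exactly one factor `p` in the twisting integer, which reduce to
two different roots of the cubic modulo `p`, are linearly independent (no rational 2-torsion).
-/

namespace Pool.Agent.Helper19.TW

open WeierstrassCurve WeierstrassCurve.Affine

/-- the quadratic twist by `d` of `y^2 = x^3 + a x + b` -/
def tw (a b d : ℤ) : WeierstrassCurve ℚ := ⟨0, 0, 0, (a * d ^ 2 : ℤ), (b * d ^ 3 : ℤ)⟩

section norm

variable {p : ℕ} [hp : Fact p.Prime]

lemma nadd_lt {x y c : ℚ} (hx : padicNorm p x < c) (hy : padicNorm p y < c) : padicNorm p (x + y) < c :=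
  lt_of_le_of_lt padicNorm.nonarchimedean (max_lt hx hy)

lemma nadd_le {x y c : ℚ} (hx : padicNorm p x ≤ c) (hy : padicNorm p y ≤ c) : padicNorm p (x + y) ≤ c :=
  le_trans padicNorm.nonarchimedean (max_le hx hy)

lemma nsub_lt {x y c : ℚ} (hx : padicNorm p x < c) (hy : padicNorm p y < c) : padicNorm p (x - y) < c := by
  rw [sub_eq_add_neg]; exact nadd_lt hx (by rwa [padicNorm.neg])

lemma nsub_le {x y c : ℚ} (hx : padicNorm p x ≤ c) (hy : padicNorm p y ≤ c) : padicNorm p (x - y) ≤ c := by
  rw [sub_eq_add_neg]; exact nadd_le hx (by rwa [padicNorm.neg])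

lemma nmul_lt {x y c : ℚ} (hx : padicNorm p x < c) (hy : padicNorm p y ≤ 1) : padicNorm p (x * y) < c := by
  rw [padicNorm.mul]
  have h0 := padicNorm.nonneg (p := p) x
  have h1 := padicNorm.nonneg (p := p) y
  nlinarith

lemma nmul_le {x y : ℚ} (hx : padicNorm p x ≤ 1) (hy : padicNorm p y ≤ 1) : padicNorm p (x * y) ≤ 1 := by
  rw [padicNorm.mul]
  have h0 := padicNorm.nonneg (p := p) x
  have h1 := padicNorm.nonneg (p := p) y
  nlinarith

lemma nint (z : ℤ) : padicNorm p (z : ℚ) ≤ 1 := padicNorm.of_int z

/-- the key inequality: the reduction to the cusp is not a secant sum of two other points. -/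
lemma key {x1 x2 x3 l u A B y : ℚ} (h1 : x1 + x2 + x3 = l ^ 2)
    (h2 : x1 * x2 + x1 * x3 + x2 * x3 = A - 2 * l * u) (hy : y = l * x3 + u)
    (h3 : y ^ 2 = x3 ^ 3 + A * x3 + B) (hA : padicNorm p A < 1) (hB : padicNorm p B < 1) (hx1 : 1 ≤ padicNorm p x1)
    (hx2 : 1 ≤ padicNorm p x2) : 1 ≤ padicNorm p x3 := by
  by_contra hx3
  push Not at hx3
  have hNy : padicNorm p y < 1 := by
    have e : padicNorm p (y ^ 2) < 1 := by
      rw [h3]
      refine nadd_lt (nadd_lt ?_ ?_) hB
      · rw [pow_succ, pow_two]
        exact nmul_lt (nmul_lt hx3 hx3.le) hx3.le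
      · exact nmul_lt hA hx3.le
    rw [pow_two, padicNorm.mul] at e
    have h0 := padicNorm.nonneg (p := p) y
    nlinarith
  have hu : u = y - l * x3 := by rw [hy]; ring
  have e12 : padicNorm p (x1 * x2) = padicNorm p x1 * padicNorm p x2 := padicNorm.mul ..
  have eq12 : x1 * x2 = A - 2 * l * u - x3 * (x1 + x2) := by linarith
  have es : x1 + x2 = l ^ 2 - x3 := by linarith
  have n2 : padicNorm p (2 : ℚ) ≤ 1 := by exact_mod_cast nint (p := p) 2
  rcases le_or_gt (padicNorm p l) 1 with hl | hl
  · have hNu : padicNorm p u < 1 := by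
      rw [hu]
      refine nsub_lt hNy ?_
      rw [mul_comm]
      exact nmul_lt hx3 hl
    have hs : padicNorm p (x1 + x2) ≤ 1 := by
      rw [es, pow_two]
      exact nsub_le (nmul_le hl hl) hx3.le
    have : padicNorm p (x1 * x2) < 1 := by
      rw [eq12]
      refine nsub_lt (nsub_lt hA ?_) (nmul_lt hx3 hs)
      rw [mul_comm]
      exact nmul_lt hNu (nmul_le n2 hl)
    rw [e12] at this
    nlinarith
  · have hl0 : (0 : ℚ) < padicNorm p l := by linarith
    have hl2 : padicNorm p (l ^ 2) = padicNorm p l * padicNorm p l := by rw [pow_two, padicNorm.mul]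
    have hl1 : 1 < padicNorm p (l ^ 2) := by rw [hl2]; nlinarith
    have hs : padicNorm p (x1 + x2) = padicNorm p (l ^ 2) := by
      rw [es, sub_eq_add_neg]
      rw [padicNorm.add_eq_max_of_ne (by rw [padicNorm.neg]; linarith), padicNorm.neg]
      exact max_eq_left (by linarith)
    have hNu : padicNorm p u < padicNorm p l := by
      rw [hu]
      refine nsub_lt (by linarith) ?_
      rw [padicNorm.mul]
      have := padicNorm.nonneg (p := p) x3
      nlinarith
    have hlt : padicNorm p (x1 * x2) < padicNorm p (l ^ 2) := by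
      rw [eq12]
      refine nsub_lt (nsub_lt (by linarith) ?_) ?_
      · have : 2 * l * u = 2 * (l * u) := by ring
        rw [this, padicNorm.mul, padicNorm.mul, hl2]
        have h0 := padicNorm.nonneg (p := p) u
        have h1 := padicNorm.nonneg (p := p) (2 : ℚ)
        have : padicNorm p l * padicNorm p u < padicNorm p l * padicNorm p l := by nlinarith
        nlinarith [mul_nonneg hl0.le h0]
      · rw [padicNorm.mul, hs]
        have h0 := padicNorm.nonneg (p := p) x3
        nlinarith
    have hmax : padicNorm p (l ^ 2) ≤ max (padicNorm p x1) (padicNorm p x2) := by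
      rw [← hs]; exact padicNorm.nonarchimedean
    rw [e12] at hlt
    rcases le_max_iff.1 hmax with h | h
    · nlinarith
    · nlinarith

end norm

end Pool.Agent.Helper19.TW
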