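import Pool.Agent.Helper19.TW.Rank

namespace Pool.Agent.Helper19.TW

open WeierstrassCurve WeierstrassCurve.Affine

variable {p : ℕ} [hp : Fact p.Prime]

/-- points which do not reduce to the cusp -/
def Gd (p : ℕ) {W : WeierstrassCurve ℚ} : W.toAffine.Point → Prop
  | .zero => True
  | .some x _ _ => 1 ≤ padicNorm p x

lemma Gd_zero {W : WeierstrassCurve ℚ} : Gd p (0 : W.toAffine.Point) := trivial

lemma Gd_neg {W : WeierstrassCurve ℚ} {P : W.toAffine.Point} (h : Gd p P) : Gd p (-P) := by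
  cases P with
  | zero => exact trivial
  | some x y hxy => exact h

/-- equation of the short curve -/
lemma tw_eq {A B : ℚ} {x y : ℚ} (h : (⟨0, 0, 0, A, B⟩ : WeierstrassCurve ℚ).toAffine.Equation x y) :
    y ^ 2 = x ^ 3 + A * x + B := by
  rw [WeierstrassCurve.Affine.equation_iff] at h
  simpa using h

/-- relations on the third point of a line -/
lemma line_rel {A B : ℚ} {x1 y1 x2 y2 : ℚ}
    (h1 : (⟨0, 0, 0, A, B⟩ : WeierstrassCurve ℚ).toAffine.Equation x1 y1)
    (h2 : (⟨0, 0, 0, A, B⟩ : WeierstrassCurve ℚ).toAffine.Equation x2 y2)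
    (hxy : ¬(x1 = x2 ∧ y1 = (⟨0, 0, 0, A, B⟩ : WeierstrassCurve ℚ).toAffine.negY x2 y2)) :
    let W : WeierstrassCurve ℚ := ⟨0, 0, 0, A, B⟩
    let l := W.toAffine.slope x1 x2 y1 y2
    let x3 := W.toAffine.addX x1 x2 l
    x1 + x2 + x3 = l ^ 2 ∧ x1 * x2 + x1 * x3 + x2 * x3 = A - 2 * l * (y1 - l * x1) ∧
      (l * x3 + (y1 - l * x1)) ^ 2 = x3 ^ 3 + A * x3 + B := by
  intro W l x3
  have e1 : x3 = l ^ 2 - x1 - x2 := by simp [x3, W]
  refine ⟨by rw [e1]; ring, ?_, ?_⟩
  · have h := WeierstrassCurve.Affine.addPolynomial_slope h1 h2 hxy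
    rw [WeierstrassCurve.Affine.addPolynomial_eq, neg_inj, Cubic.prod_X_sub_C_eq,
      Cubic.toPoly_injective] at h
    have h' := congrArg Cubic.c h
    simp only at h'
    change 2 * x1 * l ^ 2 + (0 * x1 - 2 * y1 - 0) * l + (-0 * y1 + A) =
      x1 * x2 + x1 * x3 + x2 * x3 at h'
    rw [← h']; ring
  · have h := WeierstrassCurve.Affine.equation_negAdd h1 h2 hxy
    have h' := tw_eq h
    rw [WeierstrassCurve.Affine.negAddY] at h'
    have : l * x3 + (y1 - l * x1) = l * (x3 - x1) + y1 := by ring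
    rw [this]
    exact h'

lemma Gd_add {A B : ℚ} (hA : padicNorm p A < 1) (hB : padicNorm p B < 1)
    {P Q : (⟨0, 0, 0, A, B⟩ : WeierstrassCurve ℚ).toAffine.Point} (hP : Gd p P) (hQ : Gd p Q) :
    Gd p (P + Q) := by
  cases P with
  | zero => change Gd p (0 + Q); rwa [zero_add]
  | some x1 y1 h1 =>
    cases Q with
    | zero => change Gd p (WeierstrassCurve.Affine.Point.some x1 y1 h1 + 0); rwa [add_zero]
    | some x2 y2 h2 =>
      by_cases hxy : x1 = x2 ∧ y1 = (⟨0, 0, 0, A, B⟩ : WeierstrassCurve ℚ).toAffine.negY x2 y2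
      · rw [WeierstrassCurve.Affine.Point.add_of_Y_eq hxy.1 hxy.2]
        exact trivial
      · rw [WeierstrassCurve.Affine.Point.add_some hxy]
        obtain ⟨r1, r2, r3⟩ := line_rel h1.1 h2.1 hxy
        exact key (p := p) r1 r2 rfl r3 hA hB hP hQ

end Pool.Agent.Helper19.TW
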