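import Pool.Agent.Helper19.TW.Rank2

namespace Pool.Agent.Helper19.TW

open WeierstrassCurve WeierstrassCurve.Affine

/-- abstract independence argument -/
lemma indep {G : Type*} [AddCommGroup G] (S : G → Prop)
    (hn : ∀ x, S x → S (-x)) (h2 : ∀ x, S (x + x)) (ht : ∀ x : G, x + x = 0 → x = 0)
    {P Q : G} (hP : ¬ S P) (hQ : ¬ S Q) (hPQ : ¬ S (P + Q)) :
    ∀ s t : ℤ, s • P + t • Q = 0 → s = 0 ∧ t = 0 := by
  have main : ∀ n : ℕ, ∀ s t : ℤ, s.natAbs + t.natAbs ≤ n → s • P + t • Q = 0 → s = 0 ∧ t = 0 := by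
    intro n
    induction n with
    | zero =>
      intro s t h _
      constructor <;> omega
    | succ n ih =>
      intro s t h e
      rcases Int.even_or_odd' s with ⟨s', hs | hs⟩ <;> rcases Int.even_or_odd' t with ⟨t', ht' | ht'⟩
      · -- both even
        have e2 : (s' • P + t' • Q) + (s' • P + t' • Q) = 0 := by
          rw [← e, hs, ht', two_mul, two_mul, add_smul, add_smul]; abel
        have e3 := ht _ e2
        by_cases h0 : s = 0 ∧ t = 0
        · exact h0
        · have := ih s' t' (by omega) e3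
          constructor <;> omega
      · exfalso
        apply hQ
        have : Q = -((s' • P + t' • Q) + (s' • P + t' • Q)) := by
          rw [eq_neg_iff_add_eq_zero, ← e, hs, ht', two_mul, two_mul, add_smul, add_smul, add_smul,
            one_smul]
          abel
        rw [this]
        exact hn _ (h2 _)
      · exfalso
        apply hP
        have : P = -((s' • P + t' • Q) + (s' • P + t' • Q)) := by
          rw [eq_neg_iff_add_eq_zero, ← e, hs, ht', two_mul, two_mul, add_smul, add_smul, add_smul,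
            one_smul]
          abel
        rw [this]
        exact hn _ (h2 _)
      · exfalso
        apply hPQ
        have : P + Q = -((s' • P + t' • Q) + (s' • P + t' • Q)) := by
          rw [eq_neg_iff_add_eq_zero, ← e, hs, ht', two_mul, two_mul, add_smul, add_smul, add_smul,
            add_smul, one_smul, one_smul]
          abel
        rw [this]
        exact hn _ (h2 _)
  intro s t e
  exact main _ s t le_rfl e

section

variable {p : ℕ} [hp : Fact p.Prime]

/-- small elements have norm at most `1/p` -/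
lemma small {x : ℚ} (h : padicNorm p x < 1) : padicNorm p x ≤ (p : ℚ)⁻¹ := by
  by_cases hx : x = 0
  · subst hx
    simp
  · have hp1 : (1 : ℚ) < p := by exact_mod_cast hp.out.one_lt
    rw [padicNorm.eq_zpow_of_nonzero hx] at h ⊢
    have : -padicValRat p x < 0 := by
      by_contra hc
      push Not at hc
      have := one_le_zpow₀ hp1.le hc
      linarith
    rw [← zpow_neg_one]
    exact zpow_le_zpow_right₀ hp1.le (by omega)

lemma disc_unit {a b : ℤ} {x : ℚ} (hD : padicNorm p ((4 * a ^ 3 + 27 * b ^ 2 : ℤ) : ℚ) = 1)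
    (hx : padicNorm p x ≤ 1) (hf : padicNorm p (x ^ 3 + a * x + b) < 1) : padicNorm p (3 * x ^ 2 + a) = 1 := by
  have n (z : ℤ) : padicNorm p (z : ℚ) ≤ 1 := nint z
  have hle : padicNorm p (3 * x ^ 2 + a) ≤ 1 := by
    refine nadd_le (nmul_le (by exact_mod_cast n 3) ?_) (n a)
    rw [pow_two]; exact nmul_le hx hx
  refine le_antisymm hle ?_
  by_contra hlt
  push Not at hlt
  have e : ((4 * a ^ 3 + 27 * b ^ 2 : ℤ) : ℚ) =
      (3 * x ^ 2 + a) * (4 * a ^ 2 + 3 * x * (2 * a * x - 3 * b)) -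
      (x ^ 3 + a * x + b) * (9 * (2 * a * x - 3 * b)) := by
    push_cast; ring
  have h9 : padicNorm p (2 * a * x - 3 * b : ℚ) ≤ 1 := by
    refine nsub_le ?_ ?_
    · exact nmul_le (nmul_le (by exact_mod_cast n 2) (n a)) hx
    · exact nmul_le (by exact_mod_cast n 3) (n b)
  have h1 : padicNorm p ((4 * a ^ 3 + 27 * b ^ 2 : ℤ) : ℚ) < 1 := by
    rw [e]
    refine nsub_lt (nmul_lt hlt ?_) (nmul_lt hf ?_)
    · refine nadd_le ?_ ?_
      · have := nmul_le (p := p) (by exact_mod_cast n 4 : padicNorm p (4 : ℚ) ≤ 1)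
          (nmul_le (n a) (n a) : padicNorm p ((a : ℚ) * a) ≤ 1)
        rw [pow_two]; exact this
      · exact nmul_le (nmul_le (by exact_mod_cast n 3) hx) h9
    · exact nmul_le (by exact_mod_cast n 9) h9
  linarith

/-- a point reducing to the cusp has the form `(d x, d^2 y)` with integral `x`, `y`. -/
lemma scaled {a b d : ℤ} (hd : padicNorm p (d : ℚ) = (p : ℚ)⁻¹) {X Y : ℚ}
    (h : Y ^ 2 = X ^ 3 + (a * d ^ 2 : ℤ) * X + (b * d ^ 3 : ℤ)) (hX : padicNorm p X < 1) :
    ∃ x y : ℚ, X = d * x ∧ Y = d ^ 2 * y ∧ padicNorm p x ≤ 1 ∧ padicNorm p y ≤ 1 ∧ padicNorm p (x ^ 3 + a * x + b) < 1 := by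
  have hp0 : (0 : ℚ) < p := by exact_mod_cast hp.out.pos
  have hp1 : (1 : ℚ) < p := by exact_mod_cast hp.out.one_lt
  have hinv : (p : ℚ)⁻¹ < 1 := inv_lt_one_of_one_lt₀ hp1
  have hinv0 : (0 : ℚ) < (p : ℚ)⁻¹ := inv_pos.2 hp0
  have hd0 : (d : ℚ) ≠ 0 := by
    intro h0
    rw [h0, padicNorm.zero] at hd
    linarith
  have n (z : ℤ) : padicNorm p (z : ℚ) ≤ 1 := nint z
  set x : ℚ := X / d with hxd
  set y : ℚ := Y / d ^ 2 with hyd
  have eX : X = d * x := by rw [hxd]; field_simp
  have eY : Y = d ^ 2 * y := by rw [hyd]; field_simp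
  have hx : padicNorm p x ≤ 1 := by
    have := small hX
    rw [eX, padicNorm.mul, hd] at this
    by_contra hc
    push Not at hc
    nlinarith
  have ef : d * y ^ 2 = x ^ 3 + a * x + b := by
    rw [eX, eY] at h
    push_cast at h
    have h3 : (d : ℚ) ^ 3 ≠ 0 := pow_ne_zero _ hd0
    have : (d : ℚ) ^ 3 * (d * y ^ 2) = (d : ℚ) ^ 3 * (x ^ 3 + a * x + b) := by
      linear_combination h
    exact mul_left_cancel₀ h3 this
  have hfle : padicNorm p (x ^ 3 + a * x + b) ≤ 1 := by
    refine nadd_le (nadd_le ?_ (nmul_le (n a) hx)) (n b)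
    rw [pow_succ, pow_two]; exact nmul_le (nmul_le hx hx) hx
  have hdy : padicNorm p (d * y) < 1 := by
    have e : padicNorm p ((d * y) ^ 2) ≤ (p : ℚ)⁻¹ := by
      have : ((d : ℚ) * y) ^ 2 = d * (d * y ^ 2) := by ring
      rw [this, ef, padicNorm.mul, hd]
      nlinarith
    rw [pow_two, padicNorm.mul] at e
    by_contra hc
    push Not at hc
    nlinarith
  have hy : padicNorm p y ≤ 1 := by
    have := small hdy
    rw [padicNorm.mul, hd] at this
    by_contra hc
    push Not at hc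
    nlinarith
  refine ⟨x, y, eX, eY, hx, hy, ?_⟩
  rw [← ef]
  refine nmul_lt (by rw [hd]; exact hinv) ?_
  rw [pow_two]; exact nmul_le hy hy

lemma coefA {a d : ℤ} (hd : padicNorm p (d : ℚ) = (p : ℚ)⁻¹) : padicNorm p ((a * d ^ 2 : ℤ) : ℚ) < 1 := by
  have hp1 : (1 : ℚ) < p := by exact_mod_cast hp.out.one_lt
  have hinv : (p : ℚ)⁻¹ < 1 := inv_lt_one_of_one_lt₀ hp1
  have : ((a * d ^ 2 : ℤ) : ℚ) = d * (d * a) := by push_cast; ring
  rw [this]
  exact nmul_lt (by rw [hd]; exact hinv) (nmul_le (nint d) (nint a))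

lemma coefB {b d : ℤ} (hd : padicNorm p (d : ℚ) = (p : ℚ)⁻¹) : padicNorm p ((b * d ^ 3 : ℤ) : ℚ) < 1 := by
  have hp1 : (1 : ℚ) < p := by exact_mod_cast hp.out.one_lt
  have hinv : (p : ℚ)⁻¹ < 1 := inv_lt_one_of_one_lt₀ hp1
  have : ((b * d ^ 3 : ℤ) : ℚ) = d * (d * (d * b)) := by push_cast; ring
  rw [this]
  exact nmul_lt (by rw [hd]; exact hinv) (nmul_le (nint d) (nmul_le (nint d) (nint b)))

/-- doubling -/
lemma Gd_dbl {a b d : ℤ} (hd : padicNorm p (d : ℚ) = (p : ℚ)⁻¹)
    (hD : padicNorm p ((4 * a ^ 3 + 27 * b ^ 2 : ℤ) : ℚ) = 1) (P : (tw a b d).toAffine.Point) :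
    Gd p (P + P) := by
  by_cases hG : Gd p P
  · exact Gd_add (coefA hd) (coefB hd) hG hG
  cases P with
  | zero => exact absurd trivial hG
  | some X Y h =>
    have hX : padicNorm p X < 1 := not_le.1 hG
    have heq : Y ^ 2 = X ^ 3 + (a * d ^ 2 : ℤ) * X + (b * d ^ 3 : ℤ) := tw_eq h.1
    obtain ⟨x, y, eX, eY, hx, hy, hf⟩ := scaled hd heq hX
    have hp0 : (0 : ℚ) < p := by exact_mod_cast hp.out.pos
    have hd0 : (d : ℚ) ≠ 0 := by
      intro h0
      rw [h0, padicNorm.zero] at hd
      have := inv_pos.2 hp0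
      linarith
    by_cases hY : Y = (tw a b d).toAffine.negY X Y
    · rw [WeierstrassCurve.Affine.Point.add_self_of_Y_eq hY]
      exact trivial
    · rw [WeierstrassCurve.Affine.Point.add_self_of_Y_ne hY]
      change 1 ≤ padicNorm p _
      have hY0 : Y ≠ 0 := by
        intro h0
        apply hY
        simp [WeierstrassCurve.Affine.negY, tw, h0]
      have hy0 : y ≠ 0 := by
        intro h0
        apply hY0
        rw [eY, h0, mul_zero]
      have hs : (tw a b d).toAffine.slope X X Y Y = (3 * x ^ 2 + a) / (2 * y) := by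
        rw [WeierstrassCurve.Affine.slope_of_Y_ne rfl hY]
        simp only [WeierstrassCurve.Affine.negY, tw]
        rw [eX, eY]
        push_cast
        have : (d : ℚ) ^ 2 * y - (-(d ^ 2 * y) - 0 * (d * x) - 0) = d ^ 2 * (2 * y) := by ring
        rw [this]
        have h2 : (3 * (d * x) ^ 2 + 2 * 0 * (d * x) + a * d ^ 2 - 0 * (d ^ 2 * y) : ℚ) =
          d ^ 2 * (3 * x ^ 2 + a) := by ring
        rw [h2, mul_div_mul_left _ _ (pow_ne_zero 2 hd0)]
      have hadd : (tw a b d).toAffine.addX X X ((3 * x ^ 2 + a) / (2 * y)) =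
          ((3 * x ^ 2 + a) / (2 * y)) ^ 2 - 2 * X := by
        simp [WeierstrassCurve.Affine.addX, tw]; ring
      rw [hs, hadd]
      have hl : 1 ≤ padicNorm p ((3 * x ^ 2 + a) / (2 * y)) := by
        rw [padicNorm.div, disc_unit hD hx hf]
        have h1 : padicNorm p (2 * y) ≤ 1 := nmul_le (by exact_mod_cast nint (p := p) 2) hy
        have h0 : 0 < padicNorm p (2 * y) :=
          lt_of_le_of_ne (padicNorm.nonneg _) (Ne.symm (padicNorm.nonzero (by positivity)))
        rw [le_div_iff₀ h0]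
        linarith
      have hl2 : 1 ≤ padicNorm p (((3 * x ^ 2 + a) / (2 * y)) ^ 2) := by
        rw [pow_two, padicNorm.mul]
        nlinarith
      have h2X : padicNorm p (2 * X) < 1 := by
        rw [mul_comm]
        exact nmul_lt hX (by exact_mod_cast nint (p := p) 2)
      rw [sub_eq_add_neg, padicNorm.add_eq_max_of_ne (by rw [padicNorm.neg]; linarith)]
      exact le_trans hl2 (le_max_left _ _)

end

end Pool.Agent.Helper19.TW
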