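import Pool.Agent.Helper19.TW.Rank3

namespace Pool.Agent.Helper19.TW

open WeierstrassCurve WeierstrassCurve.Affine

variable {p : ℕ} [hp : Fact p.Prime]

lemma tw_disc (a b d : ℤ) : (tw a b d).Δ = -16 * (d : ℚ) ^ 6 * (4 * a ^ 3 + 27 * b ^ 2) := by
  simp only [WeierstrassCurve.Δ, WeierstrassCurve.b₂, WeierstrassCurve.b₄, WeierstrassCurve.b₆,
    WeierstrassCurve.b₈, tw]
  push_cast
  ring

lemma two_tors {a b d : ℤ} (hd : d ≠ 0) (hroot : ∀ r : ℚ, r ^ 3 + a * r + b ≠ 0)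
    (R : (tw a b d).toAffine.Point) (h : R + R = 0) : R = 0 := by
  cases R with
  | zero => rfl
  | some X Y hXY =>
    exfalso
    by_cases hY : Y = (tw a b d).toAffine.negY X Y
    · have hY0 : Y = 0 := by
        simp only [WeierstrassCurve.Affine.negY, tw] at hY
        linarith
      have heq : Y ^ 2 = X ^ 3 + (a * d ^ 2 : ℤ) * X + (b * d ^ 3 : ℤ) := tw_eq hXY.1
      rw [hY0] at heq
      push_cast at heq
      have hd' : (d : ℚ) ≠ 0 := by exact_mod_cast hd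
      apply hroot (X / d)
      field_simp
      linarith
    · rw [WeierstrassCurve.Affine.Point.add_self_of_Y_ne hY] at h
      exact WeierstrassCurve.Affine.Point.some_ne_zero _ h

lemma mk_point {a b d : ℤ} (hd : d ≠ 0) (hD : 4 * a ^ 3 + 27 * b ^ 2 ≠ 0) {x y : ℚ}
    (h : d * y ^ 2 = x ^ 3 + a * x + b) :
    (tw a b d).toAffine.Nonsingular (d * x) (d ^ 2 * y) := by
  have hΔ : (tw a b d).Δ ≠ 0 := by
    rw [tw_disc]
    have h1 : (d : ℚ) ≠ 0 := by exact_mod_cast hd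
    have h2 : (4 * (a : ℚ) ^ 3 + 27 * b ^ 2) ≠ 0 := by exact_mod_cast hD
    positivity
  refine (WeierstrassCurve.Affine.equation_iff_nonsingular_of_Δ_ne_zero hΔ).1 ?_
  rw [WeierstrassCurve.Affine.equation_iff]
  simp only [tw]
  push_cast
  linear_combination (d : ℚ) ^ 3 * h

/-- the rank theorem -/
theorem rank_two {a b d : ℤ} (hdp : padicNorm p (d : ℚ) = (p : ℚ)⁻¹)
    (hD : padicNorm p ((4 * a ^ 3 + 27 * b ^ 2 : ℤ) : ℚ) = 1) (hroot : ∀ r : ℚ, r ^ 3 + a * r + b ≠ 0)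
    {x₁ y₁ x₂ y₂ : ℚ} (h₁ : d * y₁ ^ 2 = x₁ ^ 3 + a * x₁ + b)
    (h₂ : d * y₂ ^ 2 = x₂ ^ 3 + a * x₂ + b) (nx₁ : padicNorm p x₁ ≤ 1) (nx₂ : padicNorm p x₂ ≤ 1)
    (ny₁ : padicNorm p y₁ ≤ 1) (ny₂ : padicNorm p y₂ ≤ 1) (nx : padicNorm p (x₁ - x₂) = 1) :
    ∃ P Q : (tw a b d).toAffine.Point, LinearIndependent ℤ ![P, Q] := by
  have hp0 : (0 : ℚ) < p := by exact_mod_cast hp.out.pos
  have hp1 : (1 : ℚ) < p := by exact_mod_cast hp.out.one_lt
  have hinv : (p : ℚ)⁻¹ < 1 := inv_lt_one_of_one_lt₀ hp1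
  have hinv0 : (0 : ℚ) < (p : ℚ)⁻¹ := inv_pos.2 hp0
  have hd0' : (d : ℚ) ≠ 0 := by
    intro h0
    rw [h0, padicNorm.zero] at hdp
    linarith
  have hd0 : d ≠ 0 := by exact_mod_cast hd0'
  have hD0 : 4 * a ^ 3 + 27 * b ^ 2 ≠ 0 := by
    intro h0
    rw [h0] at hD
    simp at hD
  have hdlt : padicNorm p (d : ℚ) < 1 := by rw [hdp]; exact hinv
  refine ⟨.some _ _ (mk_point hd0 hD0 h₁), .some _ _ (mk_point hd0 hD0 h₂), ?_⟩
  rw [LinearIndependent.pair_iff]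
  refine indep (G := (tw a b d).toAffine.Point) (Gd p) (fun _ h => Gd_neg h)
    (Gd_dbl hdp hD) (two_tors hd0 hroot) ?_ ?_ ?_
  · exact not_le.2 (nmul_lt hdlt nx₁)
  · exact not_le.2 (nmul_lt hdlt nx₂)
  · have hne : x₁ - x₂ ≠ 0 := by
      intro h0
      rw [h0, padicNorm.zero] at nx
      exact zero_ne_one nx
    have hX : (d * x₁ : ℚ) ≠ d * x₂ := by
      intro h
      exact hne (sub_eq_zero.2 (mul_left_cancel₀ hd0' h))
    rw [WeierstrassCurve.Affine.Point.add_of_X_ne hX]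
    change ¬ (1 ≤ padicNorm p _)
    rw [not_le, WeierstrassCurve.Affine.slope_of_X_ne hX]
    have e : (tw a b d).toAffine.addX (d * x₁) (d * x₂)
        ((d ^ 2 * y₁ - d ^ 2 * y₂) / (d * x₁ - d * x₂)) =
        (d * ((y₁ - y₂) / (x₁ - x₂))) ^ 2 - d * x₁ - d * x₂ := by
      simp only [WeierstrassCurve.Affine.addX, tw]
      have : ((d : ℚ) ^ 2 * y₁ - d ^ 2 * y₂) / (d * x₁ - d * x₂) = d * ((y₁ - y₂) / (x₁ - x₂)) := by
        rw [← mul_sub, ← mul_sub, pow_two, mul_assoc, mul_div_mul_left _ _ hd0', mul_div_assoc]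
      rw [this]
      ring
    rw [e]
    have hs : padicNorm p ((y₁ - y₂) / (x₁ - x₂)) ≤ 1 := by
      rw [padicNorm.div, nx, div_one]
      exact nsub_le ny₁ ny₂
    have hds : padicNorm p (d * ((y₁ - y₂) / (x₁ - x₂))) < 1 := nmul_lt hdlt hs
    refine nsub_lt (nsub_lt ?_ (nmul_lt hdlt nx₁)) (nmul_lt hdlt nx₂)
    rw [pow_two]
    exact nmul_lt hds hds.le

end Pool.Agent.Helper19.TW
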