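import Pool.Agent.Helper19.TW.Member

namespace Pool.Agent.Helper19.TW

/-- Twisting rules of the root numbers `w(E_d)` of an elliptic curve over `ℚ`, with `M` in the part
of the conductor: values `1` and `-1`; dependence on `d` modulo squares only; factor `sign e` for
`e ≡ 1 (mod 8 M)`; and for an odd prime `q` which divides `M` exactly once (multiplicative
reduction), `d`, `e` prime to `q` and `e ≡ 1 (mod 8 M / q)`, factor `sign e` times `(e/q)`. -/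
structure TwistRules (M : ℕ) (w : ℤ → ℤ) : Prop where
  pm : ∀ d : ℤ, d ≠ 0 → w d = 1 ∨ w d = -1
  sq : ∀ d r : ℤ, d ≠ 0 → r ≠ 0 → w (d * r ^ 2) = w d
  tw : ∀ d e : ℤ, d ≠ 0 → (8 * M : ℤ) ∣ e - 1 → w (d * e) = e.sign * w d
  mult : ∀ q : ℕ, q.Prime → q ≠ 2 → q ∣ M → ¬ q ^ 2 ∣ M → ∀ d e : ℤ, ¬ (q : ℤ) ∣ d →
    ¬ (q : ℤ) ∣ e → (8 * (M / q : ℕ) : ℤ) ∣ e - 1 → w (d * e) = e.sign * jacobiSym e q * w d

lemma TwistRules.rootLike {M : ℕ} {w : ℤ → ℤ} (h : TwistRules M w) : RootLike M w :=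
  ⟨h.pm, h.sq, h.tw⟩

lemma TwistRules.at_prime {M : ℕ} {w : ℤ → ℤ} (h : TwistRules M w) (hM : 1 ≤ M) {q : ℕ}
    (hq : q.Prime) (h2 : q ≠ 2) (h1 : q ∣ M) (hq2 : ¬ q ^ 2 ∣ M) :
    ∃ M' : ℕ, 1 ≤ M' ∧ ¬ q ∣ M' ∧ ∀ d e : ℤ, ¬ (q : ℤ) ∣ d → ¬ (q : ℤ) ∣ e →
      (8 * M' : ℤ) ∣ e - 1 → w (d * e) = e.sign * jacobiSym e q * w d := by
  obtain ⟨k, hk⟩ := h1
  have hMq : M / q = k := by rw [hk]; exact Nat.mul_div_cancel_left k hq.pos
  refine ⟨k, ?_, ?_, ?_⟩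
  · rcases Nat.eq_zero_or_pos k with h | h
    · subst h; omega
    · exact h
  · rintro ⟨j, hj⟩
    exact hq2 ⟨j, by rw [hk, hj]; ring⟩
  · intro d e hd he hde
    exact h.mult q hq h2 ⟨k, hk⟩ hq2 d e hd he (by rw [hMq]; exact hde)

/-- the discriminant is not zero if there is no rational root -/
lemma disc_ne {a b : ℤ} (ha : a ≠ 0) (hroot : ∀ r : ℚ, r ^ 3 + a * r + b ≠ 0) :
    4 * a ^ 3 + 27 * b ^ 2 ≠ 0 := by
  intro h0
  have ha3 : (a : ℚ) ≠ 0 := by exact_mod_cast ha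
  have h0' : 4 * (a : ℚ) ^ 3 + 27 * (b : ℚ) ^ 2 = 0 := by exact_mod_cast h0
  apply hroot (3 * b / a)
  field_simp
  linear_combination b * h0'

end Pool.Agent.Helper19.TW
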